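import Mathlib

/-!
# Real powers of formal power series, through the differential equation
-/

namespace Pool.Agent.BazB1

open PowerSeries Finset
open scoped PowerSeries.WithPiTopology

/-- A sequence defined by a recursion over all earlier terms. -/
noncomputable def recSeq {E : Type*} [AddCommMonoid E] (u : E) (g : ℕ → ℕ → E → E) : ℕ → E
  | 0 => u
  | n + 1 => ∑ j : Fin (n + 1), g n j (recSeq u g (n - j))
decreasing_by omega

theorem recSeq_zero {E : Type*} [AddCommMonoid E] (u : E) (g : ℕ → ℕ → E → E) :
    recSeq u g 0 = u := by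
  rw [recSeq]

theorem recSeq_succ {E : Type*} [AddCommMonoid E] (u : E) (g : ℕ → ℕ → E → E) (n : ℕ) :
    recSeq u g (n + 1) = ∑ j ∈ range (n + 1), g n j (recSeq u g (n - j)) := by
  rw [recSeq, Finset.sum_range]

section field

variable {K : Type*} [Field K] [CharZero K]

/-- The solution of `y' = D y`, `y(0) = 1`. -/
noncomputable def ode (D : K⟦X⟧) : K⟦X⟧ :=
  PowerSeries.mk (recSeq (1 : K) (fun n j y => coeff j D * y / (n + 1)))

theorem constantCoeff_ode (D : K⟦X⟧) : constantCoeff (ode D) = 1 := by
  rw [← coeff_zero_eq_constantCoeff_apply, ode, coeff_mk, recSeq_zero]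

theorem derivative_ode (D : K⟦X⟧) : derivative K (ode D) = D * ode D := by
  ext n
  rw [coeff_derivative, coeff_mul, ode, coeff_mk, recSeq_succ,
    Finset.Nat.sum_antidiagonal_eq_sum_range_succ_mk, Finset.sum_mul]
  refine Finset.sum_congr rfl fun j hj => ?_
  have : (n : K) + 1 ≠ 0 := by exact_mod_cast Nat.succ_ne_zero n
  simp only [coeff_mk]
  field_simp

theorem ode_unique {D Y Z : K⟦X⟧} (hY : derivative K Y = D * Y) (hZ : derivative K Z = D * Z)
    (hY1 : constantCoeff Y = 1) (hZ1 : constantCoeff Z = 1) : Y = Z := by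
  have h1 : Z * Y⁻¹ = 1 := by
    apply derivative.ext
    · rw [Derivation.leibniz, derivative_inv', hY, hZ, Derivation.map_one_eq_zero]
      have h2 : Y * Y⁻¹ = 1 := PowerSeries.mul_inv_cancel _ (by rw [hY1]; exact one_ne_zero)
      simp only [smul_eq_mul]
      linear_combination (-Z * D * Y⁻¹) * h2
    · simp [hY1, hZ1]
  have h2 : Y⁻¹ * Y = 1 := PowerSeries.inv_mul_cancel _ (by rw [hY1]; exact one_ne_zero)
  calc Y = 1 * Y := (one_mul _).symm
    _ = Z * Y⁻¹ * Y := by rw [h1]
    _ = Z := by rw [mul_assoc, h2, mul_one]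

theorem ode_eq {D Y : K⟦X⟧} (hY : derivative K Y = D * Y) (hY1 : constantCoeff Y = 1) :
    ode D = Y :=
  ode_unique (derivative_ode D) hY (constantCoeff_ode D) hY1

theorem ode_add (D E : K⟦X⟧) : ode (D + E) = ode D * ode E := by
  apply ode_eq
  · rw [Derivation.leibniz, derivative_ode, derivative_ode]
    simp only [smul_eq_mul]
    ring
  · simp [constantCoeff_ode]

theorem ode_zero : ode (0 : K⟦X⟧) = 1 := by
  apply ode_eq
  · simp
  · simp

/-- Logarithmic derivative of a power series. -/
noncomputable def logD (A : K⟦X⟧) : K⟦X⟧ := derivative K A * A⁻¹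

/-- The power `A ^ s` of a power series `A` with constant coefficient one. -/
noncomputable def pw (s : K) (A : K⟦X⟧) : K⟦X⟧ := ode (C s * logD A)

theorem constantCoeff_pw (s : K) (A : K⟦X⟧) : constantCoeff (pw s A) = 1 :=
  constantCoeff_ode _

theorem derivative_pw (s : K) (A : K⟦X⟧) :
    derivative K (pw s A) = C s * logD A * pw s A :=
  derivative_ode _

theorem pw_zero (A : K⟦X⟧) : pw 0 A = 1 := by
  rw [pw, map_zero, zero_mul, ode_zero]

theorem logD_mul_self {A : K⟦X⟧} (hA : constantCoeff A = 1) :
    logD A * A = derivative K A := by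
  rw [logD, mul_assoc, PowerSeries.inv_mul_cancel _ (by rw [hA]; exact one_ne_zero), mul_one]

theorem pw_one {A : K⟦X⟧} (hA : constantCoeff A = 1) : pw 1 A = A := by
  rw [pw, map_one, one_mul]
  exact ode_eq (logD_mul_self hA).symm hA

theorem pw_add (s t : K) (A : K⟦X⟧) : pw (s + t) A = pw s A * pw t A := by
  rw [pw, pw, pw, map_add, add_mul, ode_add]

theorem logD_mul {A B : K⟦X⟧} (hA : constantCoeff A = 1) (hB : constantCoeff B = 1) :
    logD (A * B) = logD A + logD B := by
  have h1 : A * A⁻¹ = 1 := PowerSeries.mul_inv_cancel _ (by rw [hA]; exact one_ne_zero)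
  have h2 : B * B⁻¹ = 1 := PowerSeries.mul_inv_cancel _ (by rw [hB]; exact one_ne_zero)
  rw [logD, logD, logD, Derivation.leibniz, PowerSeries.mul_inv_rev]
  simp only [smul_eq_mul]
  linear_combination (derivative K B * B⁻¹) * h1 + (derivative K A * A⁻¹) * h2

theorem pw_mul (s : K) {A B : K⟦X⟧} (hA : constantCoeff A = 1) (hB : constantCoeff B = 1) :
    pw s (A * B) = pw s A * pw s B := by
  rw [pw, pw, pw, logD_mul hA hB, mul_add, ode_add]

theorem pw_one_right (s : K) : pw s (1 : K⟦X⟧) = 1 := by
  rw [pw, logD]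
  simp [ode_zero]

theorem pw_natCast (n : ℕ) {A : K⟦X⟧} (hA : constantCoeff A = 1) : pw (n : K) A = A ^ n := by
  induction n with
  | zero => simp [pw_zero]
  | succ n ih => rw [Nat.cast_succ, pw_add, ih, pw_one hA, pow_succ]

/-- the characterisation of `pw` without inverses -/
theorem pw_eq_of {s : K} {A Y : K⟦X⟧} (hA : constantCoeff A = 1) (hY1 : constantCoeff Y = 1)
    (hY : A * derivative K Y = C s * derivative K A * Y) : pw s A = Y := by
  apply ode_eq _ hY1
  have h1 : A⁻¹ * A = 1 := PowerSeries.inv_mul_cancel _ (by rw [hA]; exact one_ne_zero)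
  rw [logD]
  linear_combination (-derivative K Y) * h1 + A⁻¹ * hY

theorem mul_derivative_pw (s : K) {A : K⟦X⟧} (hA : constantCoeff A = 1) :
    A * derivative K (pw s A) = C s * derivative K A * pw s A := by
  have h1 : A * A⁻¹ = 1 := PowerSeries.mul_inv_cancel _ (by rw [hA]; exact one_ne_zero)
  rw [derivative_pw, logD]
  linear_combination (C s * derivative K A * pw s A) * h1

/-- recursion for the coefficients of `pw s A` -/
theorem coeff_pw_succ (s : K) {A : K⟦X⟧} (hA : constantCoeff A = 1) (n : ℕ) :
    coeff (n + 1) (pw s A) * (n + 1) =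
      ∑ p ∈ antidiagonal n, (s * (p.1 + 1) - p.2) * coeff (p.1 + 1) A * coeff p.2 (pw s A) := by
  have h := congrArg (coeff n) (mul_derivative_pw s hA)
  rw [mul_assoc, coeff_C_mul, coeff_mul, coeff_mul] at h
  simp only [coeff_derivative] at h
  have h2 : ∑ p ∈ antidiagonal n, coeff p.1 A * (coeff (p.2 + 1) (pw s A) * ((p.2 : K) + 1)) =
      coeff (n + 1) (pw s A) * (n + 1) +
        ∑ p ∈ antidiagonal n, coeff (p.1 + 1) A * (coeff p.2 (pw s A) * (p.2 : K)) := by
    have h3 := Finset.Nat.sum_antidiagonal_succ (n := n)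
      (f := fun p : ℕ × ℕ => coeff p.1 A * (coeff p.2 (pw s A) * (p.2 : K)))
    have h4 := Finset.Nat.sum_antidiagonal_succ' (n := n)
      (f := fun p : ℕ × ℕ => coeff p.1 A * (coeff p.2 (pw s A) * (p.2 : K)))
    rw [h3] at h4
    simp only [Nat.cast_zero, mul_zero, zero_add, add_zero, Nat.cast_add, Nat.cast_one,
      coeff_zero_eq_constantCoeff_apply, hA, one_mul] at h4
    linear_combination -h4
  rw [h2] at h
  have h5 : ∑ p ∈ antidiagonal n, (s * (p.1 + 1) - p.2) * coeff (p.1 + 1) A * coeff p.2 (pw s A) =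
      s * ∑ p ∈ antidiagonal n, coeff (p.1 + 1) A * ((p.1 : K) + 1) * coeff p.2 (pw s A) -
        ∑ p ∈ antidiagonal n, coeff (p.1 + 1) A * (coeff p.2 (pw s A) * (p.2 : K)) := by
    rw [Finset.mul_sum, ← Finset.sum_sub_distrib]
    refine Finset.sum_congr rfl fun p _ => ?_
    ring
  rw [h5]
  linear_combination h

theorem derivative_rescale (x : K) (A : K⟦X⟧) :
    derivative K (rescale x A) = C x * rescale x (derivative K A) := by
  ext n
  rw [coeff_derivative, coeff_rescale, coeff_C_mul, coeff_rescale, coeff_derivative]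
  ring

theorem constantCoeff_rescale (x : K) (A : K⟦X⟧) :
    constantCoeff (rescale x A) = constantCoeff A := by
  rw [← coeff_zero_eq_constantCoeff_apply, ← coeff_zero_eq_constantCoeff_apply, coeff_rescale,
    pow_zero, one_mul]

theorem rescale_C' (x s : K) : rescale x (C s) = C s := by
  ext n
  rw [coeff_rescale, coeff_C]
  split_ifs with h
  · simp [h]
  · simp

theorem pw_rescale (s x : K) {A : K⟦X⟧} (hA : constantCoeff A = 1) :
    pw s (rescale x A) = rescale x (pw s A) := by
  apply pw_eq_of
  · rw [constantCoeff_rescale, hA]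
  · rw [constantCoeff_rescale, constantCoeff_pw]
  · rw [derivative_rescale, derivative_rescale]
    have h := congrArg (rescale x) (mul_derivative_pw s hA)
    rw [map_mul, map_mul, map_mul, rescale_C'] at h
    linear_combination (C x) * h

theorem derivative_map {K' : Type*} [Field K'] (φ : K →+* K') (A : K⟦X⟧) :
    derivative K' (map φ A) = map φ (derivative K A) := by
  ext n
  rw [coeff_derivative, coeff_map, coeff_map, coeff_derivative]
  simp

theorem pw_map {K' : Type*} [Field K'] [CharZero K'] (φ : K →+* K') (s : K) {A : K⟦X⟧}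
    (hA : constantCoeff A = 1) : pw (φ s) (map φ A) = map φ (pw s A) := by
  apply pw_eq_of
  · rw [← coeff_zero_eq_constantCoeff_apply, coeff_map, coeff_zero_eq_constantCoeff_apply, hA,
      map_one]
  · rw [← coeff_zero_eq_constantCoeff_apply, coeff_map, coeff_zero_eq_constantCoeff_apply,
      constantCoeff_pw, map_one]
  · rw [derivative_map, derivative_map]
    have h := congrArg (map φ) (mul_derivative_pw s hA)
    rw [map_mul, map_mul, map_mul, map_C] at h
    exact h

/-- Continuous dependence of the coefficients of `pw s A` on `s` and `A`. -/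
theorem tendsto_coeff_pw {K : Type*} [NormedField K] [CharZero K] {ι : Type*} {l : Filter ι}
    {s : ι → K} {s₀ : K} {A : ι → K⟦X⟧} {A₀ : K⟦X⟧} (hs : Filter.Tendsto s l (nhds s₀))
    (hA1 : ∀ i, constantCoeff (A i) = 1) (hA0 : constantCoeff A₀ = 1)
    (hA : ∀ k, Filter.Tendsto (fun i => coeff k (A i)) l (nhds (coeff k A₀))) (n : ℕ) :
    Filter.Tendsto (fun i => coeff n (pw (s i) (A i))) l (nhds (coeff n (pw s₀ A₀))) := by
  induction n using Nat.strong_induction_on with
  | _ n ih =>
    rcases n with _ | n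
    · simp only [coeff_zero_eq_constantCoeff_apply, constantCoeff_pw]
      exact tendsto_const_nhds
    · have hn : (n : K) + 1 ≠ 0 := by exact_mod_cast Nat.succ_ne_zero n
      have h1 : ∀ (t : K) (B : K⟦X⟧), constantCoeff B = 1 → coeff (n + 1) (pw t B) =
          (∑ p ∈ antidiagonal n, (t * (p.1 + 1) - p.2) * coeff (p.1 + 1) B * coeff p.2 (pw t B))
            / (n + 1) := by
        intro t B hB
        rw [← coeff_pw_succ t hB n]
        field_simp
      rw [h1 s₀ A₀ hA0]
      simp only [fun i => h1 (s i) (A i) (hA1 i)]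
      apply Filter.Tendsto.div_const
      apply tendsto_finsetSum
      intro p hp
      have hp2 : p.2 < n + 1 := by
        have := Finset.HasAntidiagonal.mem_antidiagonal.1 hp
        omega
      exact (((hs.mul tendsto_const_nhds).sub tendsto_const_nhds).mul (hA _)).mul (ih _ hp2)

/-- `pw` of a real series: nonnegative coefficients from those of the logarithmic derivative. -/
theorem coeff_ode_nonneg {D : ℝ⟦X⟧} (hD : ∀ n, 0 ≤ coeff n D) (n : ℕ) : 0 ≤ coeff n (ode D) := by
  induction n using Nat.strong_induction_on with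
  | _ n ih =>
    rcases n with _ | n
    · rw [coeff_zero_eq_constantCoeff_apply, constantCoeff_ode]
      exact zero_le_one
    · have h := congrArg (coeff n) (derivative_ode D)
      rw [coeff_derivative, coeff_mul] at h
      have h2 : 0 ≤ ∑ p ∈ antidiagonal n, coeff p.1 D * coeff p.2 (ode D) := by
        refine Finset.sum_nonneg fun p hp => mul_nonneg (hD _) (ih _ ?_)
        have := Finset.HasAntidiagonal.mem_antidiagonal.1 hp
        omega
      rw [← h] at h2
      exact nonneg_of_mul_nonneg_left h2 (by positivity)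

end field

end Pool.Agent.BazB1
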