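import Mathlib
import Pool.Agent.Lib_MP_0e1b7e_an.Pow

/-!
# Power series represented by contractions

`IsRep κ F` : `F = 2 ∑ ⟪u, v n⟫ X ^ n - 1` with `v 0 = u` a unit vector of a complex inner product
space and `v (n + 1) = ∑_{j ≤ n} κ j • C j (v (n - j))`, with linear contractions `C j`.
-/

namespace Pool.Agent.BazB1

open PowerSeries Finset

/-- `F = 2 ∑ ⟪u, v n⟫ X ^ n - 1`. -/
def IsRep (κ : ℕ → ℝ) (F : ℂ⟦X⟧) : Prop :=
  ∃ (E : Type) (_ : NormedAddCommGroup E) (_ : InnerProductSpace ℂ E) (u : E)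
    (C : ℕ → E →ₗ[ℂ] E) (v : ℕ → E), ‖u‖ = 1 ∧ (∀ j x, ‖C j x‖ ≤ ‖x‖) ∧ v 0 = u ∧
    (∀ n, v (n + 1) = ∑ j ∈ range (n + 1), (κ j : ℂ) • C j (v (n - j))) ∧
    F = 2 * PowerSeries.mk (fun n => inner ℂ u (v n)) - 1

theorem IsRep.constantCoeff {κ : ℕ → ℝ} {F : ℂ⟦X⟧} (h : IsRep κ F) :
    PowerSeries.constantCoeff F = 1 := by
  obtain ⟨E, _, _, u, C, v, hu, hC, hv0, hv, rfl⟩ := h
  have h1 : PowerSeries.constantCoeff (PowerSeries.mk (fun n => inner ℂ u (v n))) = (1 : ℂ) := by
    rw [← coeff_zero_eq_constantCoeff_apply, coeff_mk, hv0, inner_self_eq_norm_sq_to_K, hu]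
    simp
  rw [map_sub, map_mul, h1, map_one, map_ofNat]
  norm_num

theorem IsRep.norm_coeff_le {κ m : ℕ → ℝ} (hκ : ∀ n, 0 ≤ κ n) (hm0 : m 0 = 1)
    (hm : ∀ n, m (n + 1) = ∑ j ∈ range (n + 1), κ j * m (n - j)) {F : ℂ⟦X⟧} (h : IsRep κ F)
    (n : ℕ) : ‖coeff (n + 1) F‖ ≤ 2 * m (n + 1) := by
  obtain ⟨E, _, _, u, C, v, hu, hC, hv0, hv, rfl⟩ := h
  have hb : ∀ n, ‖v n‖ ≤ m n := by
    intro n
    induction n using Nat.strong_induction_on with
    | _ n ih =>
      rcases n with _ | n
      · rw [hv0, hu, hm0]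
      · rw [hv, hm]
        refine (norm_sum_le _ _).trans (Finset.sum_le_sum fun j hj => ?_)
        rw [norm_smul]
        have h1 : ‖(κ j : ℂ)‖ = κ j := by
          rw [Complex.norm_real, Real.norm_of_nonneg (hκ j)]
        rw [h1]
        exact mul_le_mul_of_nonneg_left ((hC j _).trans (ih _ (by omega))) (hκ j)
  have h2 : coeff (n + 1) (2 * PowerSeries.mk (fun n => inner ℂ u (v n)) - 1 : ℂ⟦X⟧) =
      2 * inner ℂ u (v (n + 1)) := by
    have : (2 : ℂ⟦X⟧) = PowerSeries.C (2 : ℂ) := (map_ofNat _ 2).symm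
    rw [map_sub, this, coeff_C_mul, coeff_mk, coeff_one, if_neg (Nat.succ_ne_zero n), sub_zero]
  rw [h2, norm_mul]
  have h3 := norm_inner_le_norm (𝕜 := ℂ) u (v (n + 1))
  rw [hu, one_mul] at h3
  have h4 : ‖(2 : ℂ)‖ = 2 := by norm_num
  rw [h4]
  exact mul_le_mul_of_nonneg_left (h3.trans (hb _)) (by norm_num)

/-- The averages `∑ λ_i G(x_i X)`. -/
theorem isRep_sum {κ m : ℕ → ℝ} (hm0 : m 0 = 1)
    (hm : ∀ n, m (n + 1) = ∑ j ∈ range (n + 1), κ j * m (n - j)) {ι : Type} [Fintype ι]
    (lam : ι → ℝ) (hl : ∀ i, 0 ≤ lam i) (hl1 : ∑ i, lam i = 1) (x : ι → ℂ)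
    (hx : ∀ i, ‖x i‖ = 1) :
    IsRep κ (2 * PowerSeries.mk (fun n => (m n : ℂ) * ∑ i, (lam i : ℂ) * x i ^ n) - 1) := by
  classical
  refine ⟨EuclideanSpace ℂ ι, inferInstance, inferInstance,
    WithLp.toLp 2 (fun i => ((Real.sqrt (lam i) : ℝ) : ℂ)),
    fun j =>
      { toFun := fun y => WithLp.toLp 2 (fun i => x i ^ (j + 1) * y i)
        map_add' := by
          intro y z
          ext i
          simp [mul_add]
        map_smul' := by
          intro c y
          ext i
          simp [mul_left_comm] },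
    fun n => WithLp.toLp 2 (fun i => (m n : ℂ) * x i ^ n * ((Real.sqrt (lam i) : ℝ) : ℂ)),
    ?_, ?_, ?_, ?_, ?_⟩
  · rw [EuclideanSpace.norm_eq, Real.sqrt_eq_one]
    simp only [Complex.norm_real]
    rw [← hl1]
    refine Finset.sum_congr rfl fun i _ => ?_
    rw [Real.norm_of_nonneg (Real.sqrt_nonneg _), Real.sq_sqrt (hl i)]
  · intro j y
    rw [EuclideanSpace.norm_eq, EuclideanSpace.norm_eq]
    apply le_of_eq
    congr 1
    refine Finset.sum_congr rfl fun i _ => ?_
    simp [hx i]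
  · ext i
    simp [hm0]
  · intro n
    ext i
    simp only [WithLp.ofLp_sum, Finset.sum_apply, WithLp.ofLp_smul, Pi.smul_apply,
      LinearMap.coe_mk, AddHom.coe_mk, smul_eq_mul]
    rw [hm]
    push_cast
    rw [Finset.sum_mul, Finset.sum_mul]
    refine Finset.sum_congr rfl fun j hj => ?_
    have hj' : j ≤ n := Nat.lt_succ_iff.1 (Finset.mem_range.1 hj)
    have h1 : x i ^ (n + 1) = x i ^ (j + 1) * x i ^ (n - j) := by
      rw [← pow_add]
      congr 1
      omega
    rw [h1]
    ring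
  · congr 2
    ext n
    rw [coeff_mk, coeff_mk, PiLp.inner_apply, Finset.mul_sum]
    refine Finset.sum_congr rfl fun i _ => ?_
    have h2 : ((Real.sqrt (lam i) : ℝ) : ℂ) * ((Real.sqrt (lam i) : ℝ) : ℂ) = (lam i : ℂ) := by
      rw [← Complex.ofReal_mul, Real.mul_self_sqrt (hl i)]
    simp only [RCLike.inner_apply, Complex.conj_ofReal]
    linear_combination (-(m n : ℂ) * x i ^ n) * h2

/-- The class is closed under arithmetic means. -/
theorem IsRep.avg {κ : ℕ → ℝ} {F G : ℂ⟦X⟧} (hF : IsRep κ F) (hG : IsRep κ G) :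
    IsRep κ (PowerSeries.C (1 / 2) * (F + G)) := by
  obtain ⟨E, _, _, u, C, v, hu, hC, hv0, hv, rfl⟩ := hF
  obtain ⟨E', _, _, u', C', v', hu', hC', hv0', hv', rfl⟩ := hG
  set r : ℂ := ((Real.sqrt (1 / 2) : ℝ) : ℂ) with hr
  have hrr : r * r = 1 / 2 := by
    rw [hr, ← Complex.ofReal_mul, Real.mul_self_sqrt (by norm_num)]
    norm_num
  refine ⟨WithLp 2 (E × E'), inferInstance, inferInstance, WithLp.toLp 2 (r • u, r • u'),
    fun j =>
      { toFun := fun y => WithLp.toLp 2 (C j y.fst, C' j y.snd)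
        map_add' := by
          intro y z
          simp only [WithLp.add_fst, WithLp.add_snd, map_add]
          rfl
        map_smul' := by
          intro c y
          simp only [WithLp.smul_fst, WithLp.smul_snd, map_smul]
          rfl },
    fun n => WithLp.toLp 2 (r • v n, r • v' n), ?_, ?_, ?_, ?_, ?_⟩
  · rw [← sq_eq_sq₀ (norm_nonneg _) zero_le_one, WithLp.prod_norm_sq_eq_of_L2]
    have e1 : (WithLp.toLp 2 (r • u, r • u') : WithLp 2 (E × E')).fst = r • u := rfl
    have e2 : (WithLp.toLp 2 (r • u, r • u') : WithLp 2 (E × E')).snd = r • u' := rfl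
    rw [e1, e2, norm_smul, norm_smul, hu, hu', mul_one, hr, Complex.norm_real, Real.norm_of_nonneg (Real.sqrt_nonneg _),
      Real.sq_sqrt (by norm_num)]
    norm_num
  · intro j y
    rw [← sq_le_sq₀ (norm_nonneg _) (norm_nonneg _), WithLp.prod_norm_sq_eq_of_L2,
      WithLp.prod_norm_sq_eq_of_L2]
    exact add_le_add (pow_le_pow_left₀ (norm_nonneg _) (hC _ _) 2)
      (pow_le_pow_left₀ (norm_nonneg _) (hC' _ _) 2)
  · simp only [hv0, hv0']
  · intro n
    apply (WithLp.equiv 2 (E × E')).injective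
    simp only [WithLp.equiv_apply, WithLp.ofLp_sum, WithLp.ofLp_smul, LinearMap.coe_mk,
      AddHom.coe_mk]
    rw [hv, hv', Finset.smul_sum, Finset.smul_sum]
    apply Prod.ext
    · simp only [Prod.fst_sum, Prod.smul_mk]
      refine Finset.sum_congr rfl fun j _ => ?_
      have : C j (WithLp.toLp 2 (r • v (n - j), r • v' (n - j))).fst = r • C j (v (n - j)) :=
        map_smul _ _ _
      rw [this, smul_comm]
    · simp only [Prod.snd_sum, Prod.smul_mk]
      refine Finset.sum_congr rfl fun j _ => ?_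
      have : C' j (WithLp.toLp 2 (r • v (n - j), r • v' (n - j))).snd = r • C' j (v' (n - j)) :=
        map_smul _ _ _
      rw [this, smul_comm]
  · have h1 : PowerSeries.mk (fun n => inner ℂ (WithLp.toLp 2 (r • u, r • u') : WithLp 2 (E × E'))
        (WithLp.toLp 2 (r • v n, r • v' n))) =
        PowerSeries.C (1 / 2) * (PowerSeries.mk (fun n => inner ℂ u (v n)) +
          PowerSeries.mk (fun n => inner ℂ u' (v' n))) := by
      ext n
      rw [coeff_mk, coeff_C_mul, map_add, coeff_mk, coeff_mk, WithLp.prod_inner_apply]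
      simp only [inner_smul_left, inner_smul_right]
      rw [hr, Complex.conj_ofReal, ← hr]
      linear_combination (inner ℂ u (v n) + inner ℂ u' (v' n)) * hrr
    rw [h1]
    have h2 : (2 : ℂ⟦X⟧) * PowerSeries.C (1 / 2) = 1 := by
      have : (2 : ℂ⟦X⟧) = PowerSeries.C (2 : ℂ) := (map_ofNat _ 2).symm
      rw [this, ← map_mul]
      norm_num
    linear_combination (-1 : ℂ⟦X⟧) * h2

/-- The class is closed under inversion. -/
theorem IsRep.inv {κ : ℕ → ℝ} {F : ℂ⟦X⟧} (hF : IsRep κ F) : IsRep κ F⁻¹ := by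
  have hF1 := hF.constantCoeff
  obtain ⟨E, _, _, u, C, v, hu, hC, hv0, hv, rfl⟩ := hF
  have huu : inner ℂ u u = (1 : ℂ) := by rw [inner_self_eq_norm_sq_to_K, hu]; simp
  -- the reflection
  let V : E →ₗ[ℂ] E :=
    { toFun := fun x => x - (2 * inner ℂ u x) • u
      map_add' := by
        intro x y
        rw [inner_add_right, mul_add, add_smul]
        abel
      map_smul' := by
        intro c x
        rw [inner_smul_right, smul_sub, smul_smul, RingHom.id_apply]
        congr 2
        ring }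
  have hVx : ∀ x, V x = x - (2 * inner ℂ u x) • u := fun x => rfl
  have hV : ∀ x, ‖V x‖ = ‖x‖ := by
    intro x
    rw [← sq_eq_sq₀ (norm_nonneg _) (norm_nonneg _), hVx]
    have h1 : ((‖x - (2 * inner ℂ u x) • u‖ ^ 2 : ℝ) : ℂ) = ((‖x‖ ^ 2 : ℝ) : ℂ) := by
      rw [Complex.ofReal_pow, Complex.ofReal_pow]
      have e1 := inner_self_eq_norm_sq_to_K (𝕜 := ℂ) (x - (2 * inner ℂ u x) • u)
      have e2 := inner_self_eq_norm_sq_to_K (𝕜 := ℂ) x
      have e3 : ((‖x - (2 * inner ℂ u x) • u‖ : ℝ) : ℂ) ^ 2 =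
        inner ℂ (x - (2 * inner ℂ u x) • u) (x - (2 * inner ℂ u x) • u) := e1.symm
      have e4 : ((‖x‖ : ℝ) : ℂ) ^ 2 = inner ℂ x x := e2.symm
      rw [e3, e4]
      simp only [inner_sub_left, inner_sub_right, inner_smul_left, inner_smul_right, huu, map_mul,
        inner_conj_symm]
      have e5 : (starRingEnd ℂ) 2 = 2 := Complex.conj_ofNat 2
      rw [e5]
      ring
    exact_mod_cast h1
  set w : ℕ → E := recSeq u (fun _ j y => (κ j : ℂ) • V (C j y)) with hw
  have hw0 : w 0 = u := recSeq_zero _ _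
  have hws : ∀ n, w (n + 1) = ∑ j ∈ range (n + 1), (κ j : ℂ) • V (C j (w (n - j))) :=
    fun n => recSeq_succ _ _ n
  set q : ℕ → E := fun n => ∑ j ∈ range (n + 1), (κ j : ℂ) • C j (w (n - j)) with hq
  set φ : ℕ → ℂ := fun n => inner ℂ u (q n) with hφ
  have hwq : ∀ n, w (n + 1) = q n - (2 * φ n) • u := by
    intro n
    have h0 : w (n + 1) = V (q n) := by
      rw [hws, hq, map_sum]
      refine Finset.sum_congr rfl fun j _ => ?_
      rw [map_smul]
    rw [h0, hVx]
  have hwv : ∀ n, w n = v n - 2 • ∑ k ∈ range n, φ k • v (n - 1 - k) := by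
    intro n
    induction n using Nat.strong_induction_on with
    | _ n ih =>
      rcases n with _ | n
      · simp [hw0, hv0]
      · have h1 : q n = v (n + 1) - 2 • ∑ k ∈ range n, φ k • v (n - k) := by
          have h2 : q n = ∑ j ∈ range (n + 1), ((κ j : ℂ) • C j (v (n - j)) -
              2 • ∑ k ∈ range (n - j), φ k • (κ j : ℂ) • C j (v (n - j - 1 - k))) := by
            rw [hq]
            refine Finset.sum_congr rfl fun j hj => ?_
            rw [ih (n - j) (by omega), map_sub, map_nsmul, map_sum, smul_sub, smul_comm (κ j : ℂ) 2,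
              Finset.smul_sum]
            congr 2
            refine Finset.sum_congr rfl fun k _ => ?_
            rw [map_smul, smul_comm]
          rw [h2, Finset.sum_sub_distrib, ← hv, ← Finset.smul_sum]
          congr 2
          rw [Finset.sum_comm' (s' := fun k => range (n - k)) (t' := range n)]
          · refine Finset.sum_congr rfl fun k hk => ?_
            have hk' := Finset.mem_range.1 hk
            rw [← Finset.smul_sum]
            congr 1
            have h3 : n - k = (n - 1 - k) + 1 := by omega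
            rw [h3, hv]
            refine Finset.sum_congr rfl fun j hj => ?_
            congr 3
            omega
          · intro j k
            simp only [Finset.mem_range]
            omega
        rw [hwq, h1, Finset.sum_range_succ, smul_add, sub_add_eq_sub_sub]
        simp only [Nat.add_sub_cancel, Nat.sub_self]
        rw [hv0, ← smul_assoc (2 : ℕ) (φ n) u]
        congr 2
        rw [nsmul_eq_mul]
        norm_num
  refine ⟨E, inferInstance, inferInstance, u, fun j => V ∘ₗ C j, w, hu, ?_, hw0, ?_, ?_⟩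
  · intro j x
    rw [LinearMap.comp_apply, hV]
    exact hC j x
  · intro n
    rw [hws]
    rfl
  · symm
    rw [eq_inv_iff_mul_eq_one (by rw [hF1]; exact one_ne_zero)]
    -- the generating functions
    set S : ℂ⟦X⟧ := PowerSeries.mk (fun n => inner ℂ u (v n)) with hS
    set S' : ℂ⟦X⟧ := PowerSeries.mk (fun n => inner ℂ u (w n)) with hS'
    set Φ : ℂ⟦X⟧ := PowerSeries.mk φ with hΦ
    have h1 : S' = 1 - X * Φ := by
      ext n
      rcases n with _ | n
      · rw [coeff_zero_eq_constantCoeff_apply, coeff_zero_eq_constantCoeff_apply, map_sub,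
          map_mul, constantCoeff_X, zero_mul, map_one, sub_zero,
          ← coeff_zero_eq_constantCoeff_apply, hS', coeff_mk, hw0, huu]
      · rw [hS', coeff_mk, map_sub, coeff_succ_X_mul, coeff_one, if_neg (Nat.succ_ne_zero n),
          hΦ, coeff_mk, hwq, inner_sub_right, inner_smul_right, huu]
        simp only [hφ]
        ring
    have h2 : S' = (1 - 2 * (X * Φ)) * S := by
      ext n
      rw [sub_mul, one_mul, map_sub, mul_assoc, hS', coeff_mk, hwv, inner_sub_right]
      have h3 : (2 : ℂ⟦X⟧) = PowerSeries.C (2 : ℂ) := (map_ofNat _ 2).symm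
      rw [h3, coeff_C_mul, mul_assoc]
      have h4 : coeff n (X * (Φ * S)) = inner ℂ u (∑ k ∈ range n, φ k • v (n - 1 - k)) := by
        rcases n with _ | n
        · simp
        · rw [coeff_succ_X_mul, coeff_mul, Finset.Nat.sum_antidiagonal_eq_sum_range_succ_mk,
            inner_sum]
          refine Finset.sum_congr rfl fun k _ => ?_
          rw [inner_smul_right, hΦ, hS, coeff_mk, coeff_mk]
          rfl
      rw [h4, hS, coeff_mk, ← Nat.cast_smul_eq_nsmul ℂ, inner_smul_right, Nat.cast_ofNat]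
    linear_combination (4 * S) * h1 - 2 * h2

end Pool.Agent.BazB1
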