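import Mathlib
import Pool.Agent.Lib_MP_0e1b7e_an.Rep

/-!
# Closure under weighted geometric means, through the arithmetic-harmonic mean iteration
-/

namespace Pool.Agent.BazB1

open PowerSeries Finset

/-- The `X`-adic closure of the class `IsRep κ`. -/
def InX (κ : ℕ → ℝ) (F : ℂ⟦X⟧) : Prop :=
  ∀ N : ℕ, ∃ F' : ℂ⟦X⟧, IsRep κ F' ∧ (X : ℂ⟦X⟧) ^ N ∣ F - F'

theorem IsRep.inX {κ : ℕ → ℝ} {F : ℂ⟦X⟧} (h : IsRep κ F) : InX κ F :=
  fun N => ⟨F, h, by rw [sub_self]; exact dvd_zero _⟩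

theorem coeff_eq_of_dvd {N n : ℕ} {F G : ℂ⟦X⟧} (h : (X : ℂ⟦X⟧) ^ N ∣ F - G) (hn : n < N) :
    coeff n F = coeff n G := by
  have h1 := X_pow_dvd_iff.1 h n hn
  rw [map_sub, sub_eq_zero] at h1
  exact h1

theorem InX.constantCoeff {κ : ℕ → ℝ} {F : ℂ⟦X⟧} (h : InX κ F) :
    PowerSeries.constantCoeff F = 1 := by
  obtain ⟨F', hF', hd⟩ := h 1
  have h1 := coeff_eq_of_dvd hd Nat.zero_lt_one
  rw [coeff_zero_eq_constantCoeff_apply, coeff_zero_eq_constantCoeff_apply,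
    hF'.constantCoeff] at h1
  exact h1

theorem InX.norm_coeff_le {κ m : ℕ → ℝ} (hκ : ∀ n, 0 ≤ κ n) (hm0 : m 0 = 1)
    (hm : ∀ n, m (n + 1) = ∑ j ∈ range (n + 1), κ j * m (n - j)) {F : ℂ⟦X⟧} (h : InX κ F)
    (n : ℕ) : ‖coeff (n + 1) F‖ ≤ 2 * m (n + 1) := by
  obtain ⟨F', hF', hd⟩ := h (n + 2)
  rw [coeff_eq_of_dvd hd (by omega)]
  exact hF'.norm_coeff_le hκ hm0 hm n

theorem InX.closed {κ : ℕ → ℝ} {F : ℂ⟦X⟧}
    (h : ∀ N : ℕ, ∃ F' : ℂ⟦X⟧, InX κ F' ∧ (X : ℂ⟦X⟧) ^ N ∣ F - F') : InX κ F := by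
  intro N
  obtain ⟨F', hF', hd⟩ := h N
  obtain ⟨F'', hF'', hd'⟩ := hF' N
  refine ⟨F'', hF'', ?_⟩
  have : F - F'' = (F - F') + (F' - F'') := by ring
  rw [this]
  exact dvd_add hd hd'

theorem InX.avg {κ : ℕ → ℝ} {F G : ℂ⟦X⟧} (hF : InX κ F) (hG : InX κ G) :
    InX κ (PowerSeries.C (1 / 2) * (F + G)) := by
  intro N
  obtain ⟨F', hF', hd⟩ := hF N
  obtain ⟨G', hG', hd'⟩ := hG N
  refine ⟨_, hF'.avg hG', ?_⟩
  have : PowerSeries.C (1 / 2) * (F + G) - PowerSeries.C (1 / 2) * (F' + G') =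
      PowerSeries.C (1 / 2 : ℂ) * ((F - F') + (G - G')) := by ring
  rw [this]
  exact (dvd_add hd hd').mul_left _

theorem InX.inv {κ : ℕ → ℝ} {F : ℂ⟦X⟧} (hF : InX κ F) : InX κ F⁻¹ := by
  intro N
  obtain ⟨F', hF', hd⟩ := hF N
  refine ⟨_, hF'.inv, ?_⟩
  have h1 : F * F⁻¹ = 1 :=
    PowerSeries.mul_inv_cancel _ (by rw [hF.constantCoeff]; exact one_ne_zero)
  have h2 : F' * F'⁻¹ = 1 :=
    PowerSeries.mul_inv_cancel _ (by rw [hF'.constantCoeff]; exact one_ne_zero)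
  have : F⁻¹ - F'⁻¹ = (F - F') * (-(F⁻¹ * F'⁻¹)) := by
    linear_combination F'⁻¹ * h1 - F⁻¹ * h2
  rw [this]
  exact hd.mul_right _

theorem isUnit_of_constantCoeff {F : ℂ⟦X⟧} (h : PowerSeries.constantCoeff F ≠ 0) : IsUnit F := by
  rw [isUnit_iff_constantCoeff]
  exact h.isUnit

/-- The arithmetic-harmonic mean iteration. -/
theorem InX.ahm {κ : ℕ → ℝ} {A B : ℂ⟦X⟧} (hA : InX κ A) (hB : InX κ B) (k : ℕ) :
    ∃ a b : ℂ⟦X⟧, InX κ a ∧ InX κ b ∧ a * b = A * B ∧ (X : ℂ⟦X⟧) ^ (k + 1) ∣ a - b := by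
  induction k with
  | zero =>
    refine ⟨A, B, hA, hB, rfl, ?_⟩
    rw [X_pow_dvd_iff]
    intro m hm
    have hm0 : m = 0 := by omega
    rw [hm0, coeff_zero_eq_constantCoeff_apply, map_sub, hA.constantCoeff, hB.constantCoeff,
      sub_self]
  | succ k ih =>
    obtain ⟨a, b, ha, hb, hab, hd⟩ := ih
    have hh := ha.avg hb
    have hk := (ha.inv.avg hb.inv).inv
    refine ⟨_, _, hh, hk, ?_, ?_⟩
    all_goals
      have h1 : a * a⁻¹ = 1 :=
        PowerSeries.mul_inv_cancel _ (by rw [ha.constantCoeff]; exact one_ne_zero)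
      have h2 : b * b⁻¹ = 1 :=
        PowerSeries.mul_inv_cancel _ (by rw [hb.constantCoeff]; exact one_ne_zero)
      have h3 : (PowerSeries.C (1 / 2) * (a⁻¹ + b⁻¹)) * (PowerSeries.C (1 / 2) * (a⁻¹ + b⁻¹))⁻¹ = 1 :=
        PowerSeries.mul_inv_cancel _
          (by rw [(ha.inv.avg hb.inv).constantCoeff]; exact one_ne_zero)
      set t : ℂ⟦X⟧ := (PowerSeries.C (1 / 2) * (a⁻¹ + b⁻¹))⁻¹ with ht
      have h4 : PowerSeries.C (1 / 2) * (a + b) * t = a * b := by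
        linear_combination (a * b) * h3 - PowerSeries.C (1 / 2) * b * t * h1 -
          PowerSeries.C (1 / 2) * a * t * h2
    · rw [h4, hab]
    · have hu : IsUnit (PowerSeries.C (1 / 2) * (a + b)) :=
        isUnit_of_constantCoeff (by rw [hh.constantCoeff]; exact one_ne_zero)
      rw [← hu.dvd_mul_left]
      have h5 : (PowerSeries.C (1 / 2) : ℂ⟦X⟧) * 2 = 1 := by
        have : (2 : ℂ⟦X⟧) = PowerSeries.C (2 : ℂ) := (map_ofNat _ 2).symm
        rw [this, ← map_mul]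
        norm_num
      have h6 : PowerSeries.C (1 / 2) * (a + b) * (PowerSeries.C (1 / 2) * (a + b) - t) =
          (PowerSeries.C (1 / 2) * (a - b)) ^ 2 := by
        linear_combination (-1 : ℂ⟦X⟧) * h4 + a * b * (PowerSeries.C (1 / 2) * 2 + 1) * h5
      rw [h6, mul_pow]
      apply Dvd.dvd.mul_left
      have h7 : (X : ℂ⟦X⟧) ^ (k + 1 + 1) ∣ (X ^ (k + 1)) ^ 2 := by
        rw [← pow_mul]
        exact pow_dvd_pow _ (by omega)
      exact h7.trans (pow_dvd_pow_of_dvd hd 2)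

/-- Closure under square roots of products. -/
theorem InX.sqrt {κ : ℕ → ℝ} {A B R : ℂ⟦X⟧} (hA : InX κ A) (hB : InX κ B)
    (hR : R * R = A * B) (hR1 : PowerSeries.constantCoeff R = 1) : InX κ R := by
  apply InX.closed
  intro N
  obtain ⟨a, b, ha, hb, hab, hd⟩ := hA.ahm hB N
  refine ⟨a, ha, ?_⟩
  have hu : IsUnit (R + a) := by
    apply isUnit_of_constantCoeff
    rw [map_add, hR1, ha.constantCoeff]
    norm_num
  rw [← hu.dvd_mul_left]
  have h1 : (R + a) * (R - a) = (a - b) * (-a) := by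
    linear_combination hR - hab
  rw [h1]
  exact ((pow_dvd_pow _ (Nat.le_succ N)).trans hd).mul_right _

theorem InX.pw_dyadic {κ : ℕ → ℝ} {A B : ℂ⟦X⟧} (hA : InX κ A) (hB : InX κ B) (m : ℕ) :
    ∀ k : ℕ, k ≤ 2 ^ m → InX κ (pw ((k : ℂ) / 2 ^ m) A * pw (1 - (k : ℂ) / 2 ^ m) B) := by
  induction m with
  | zero =>
    intro k hk
    have hk' : k = 0 ∨ k = 1 := by
      rw [pow_zero] at hk
      omega
    rcases hk' with rfl | rfl
    · simp only [Nat.cast_zero, pow_zero, div_one, sub_zero]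
      rw [pw_zero, pw_one hB.constantCoeff, one_mul]
      exact hB
    · simp only [Nat.cast_one, pow_zero, div_one, sub_self]
      rw [pw_zero, pw_one hA.constantCoeff, mul_one]
      exact hA
  | succ m ih =>
    intro k hk
    rcases Nat.even_or_odd' k with ⟨l, rfl | rfl⟩
    · have h1 : ((2 * l : ℕ) : ℂ) / 2 ^ (m + 1) = (l : ℂ) / 2 ^ m := by
        rw [pow_succ]
        push_cast
        field_simp
      rw [h1]
      apply ih
      rw [pow_succ] at hk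
      omega
    · rw [pow_succ] at hk
      have e1 := ih l (by omega)
      have e2 := ih (l + 1) (by omega)
      refine InX.sqrt e1 e2 ?_ ?_
      · have h1 : ∀ (s t : ℂ), pw s A * pw (1 - s) B * (pw t A * pw (1 - t) B) =
            pw (s + t) A * pw (2 - (s + t)) B := by
          intro s t
          rw [pw_add, show 2 - (s + t) = (1 - s) + (1 - t) by ring, pw_add]
          ring
        rw [h1, h1]
        have h2 : ((2 * l + 1 : ℕ) : ℂ) / 2 ^ (m + 1) + ((2 * l + 1 : ℕ) : ℂ) / 2 ^ (m + 1) =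
            (l : ℂ) / 2 ^ m + ((l + 1 : ℕ) : ℂ) / 2 ^ m := by
          rw [pow_succ]
          push_cast
          field_simp
          ring
        rw [h2]
      · rw [map_mul, constantCoeff_pw, constantCoeff_pw, one_mul]

/-- The coefficient bound for weighted geometric means. -/
theorem InX.norm_coeff_pw_mul_le {κ m : ℕ → ℝ} (hκ : ∀ n, 0 ≤ κ n) (hm0 : m 0 = 1)
    (hm : ∀ n, m (n + 1) = ∑ j ∈ range (n + 1), κ j * m (n - j)) {A B : ℂ⟦X⟧}
    (hA : InX κ A) (hB : InX κ B) {s : ℝ} (hs0 : 0 ≤ s) (hs1 : s ≤ 1) (n : ℕ) :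
    ‖coeff (n + 1) (pw (s : ℂ) A * pw (1 - (s : ℂ)) B)‖ ≤ 2 * m (n + 1) := by
  -- dyadic approximations
  have h1 : Filter.Tendsto (fun k : ℕ => ((⌊s * 2 ^ k⌋₊ : ℝ) / 2 ^ k)) Filter.atTop (nhds s) := by
    have h2 := (tendsto_nat_floor_mul_div_atTop (R := ℝ) hs0).comp
      (tendsto_pow_atTop_atTop_of_one_lt (one_lt_two : (1 : ℝ) < 2))
    exact h2
  have h2 : Filter.Tendsto (fun k : ℕ => ((⌊s * 2 ^ k⌋₊ : ℂ) / 2 ^ k)) Filter.atTop
      (nhds (s : ℂ)) := by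
    have h3 := (Complex.continuous_ofReal.tendsto s).comp h1
    refine h3.congr fun k => ?_
    simp
  have h3 : Filter.Tendsto (fun k : ℕ => coeff (n + 1)
      (pw ((⌊s * 2 ^ k⌋₊ : ℂ) / 2 ^ k) A * pw (1 - (⌊s * 2 ^ k⌋₊ : ℂ) / 2 ^ k) B)) Filter.atTop
      (nhds (coeff (n + 1) (pw (s : ℂ) A * pw (1 - (s : ℂ)) B))) := by
    simp only [coeff_mul]
    apply tendsto_finsetSum
    intro p _
    exact (tendsto_coeff_pw h2 (fun _ => hA.constantCoeff) hA.constantCoeff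
      (fun _ => tendsto_const_nhds) _).mul
      (tendsto_coeff_pw (h2.const_sub 1) (fun _ => hB.constantCoeff) hB.constantCoeff
      (fun _ => tendsto_const_nhds) _)
  refine le_of_tendsto h3.norm (Filter.Eventually.of_forall fun k => ?_)
  refine (hA.pw_dyadic hB k _ ?_).norm_coeff_le hκ hm0 hm n
  have h4 : s * 2 ^ k ≤ ((2 ^ k : ℕ) : ℝ) := by
    push_cast
    nlinarith [pow_pos (two_pos : (0 : ℝ) < 2) k]
  exact Nat.floor_le_of_le h4

end Pool.Agent.BazB1
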