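import Mathlib
import Pool.Agent.Lib_MP_0e1b7e_an.Mean

/-!
# Kaluza's theorem and the coefficient bound for real powers
-/

namespace Pool.Agent.BazB1

open PowerSeries Finset

theorem two_eq_C {K : Type*} [Field K] : (2 : K⟦X⟧) = PowerSeries.C (2 : K) := (map_ofNat _ 2).symm

/-- Kaluza's theorem: log-convexity gives a nonnegative renewal sequence. -/
theorem exists_kaluza {m : ℕ → ℝ} (hm0 : m 0 = 1) (hpos : ∀ n, 0 < m n)
    (hlc : ∀ i n, i ≤ n → m (i + 1) * m n ≤ m (n + 1) * m i) :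
    ∃ κ : ℕ → ℝ, (∀ n, 0 ≤ κ n) ∧
      ∀ n, m (n + 1) = ∑ j ∈ range (n + 1), κ j * m (n - j) := by
  set M : ℝ⟦X⟧ := PowerSeries.mk m with hM
  have hM1 : constantCoeff M = 1 := by
    rw [← coeff_zero_eq_constantCoeff_apply, hM, coeff_mk, hm0]
  have hW : M⁻¹ * M = 1 := PowerSeries.inv_mul_cancel _ (by rw [hM1]; exact one_ne_zero)
  have hW0 : coeff 0 (M⁻¹) = 1 := by
    rw [coeff_zero_eq_constantCoeff_apply, constantCoeff_inv, hM1, inv_one]
  have hrec : ∀ n, m (n + 1) = ∑ j ∈ range (n + 1), (-coeff (j + 1) M⁻¹) * m (n - j) := by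
    intro n
    have h1 := congrArg (coeff (n + 1)) hW
    rw [coeff_mul, Finset.Nat.sum_antidiagonal_succ, hW0, one_mul, coeff_one,
      if_neg (Nat.succ_ne_zero n), Finset.Nat.sum_antidiagonal_eq_sum_range_succ_mk] at h1
    simp only [hM, coeff_mk] at h1
    simp only [hM, neg_mul, Finset.sum_neg_distrib]
    linarith
  refine ⟨fun n => -coeff (n + 1) M⁻¹, ?_, hrec⟩
  intro n
  induction n using Nat.strong_induction_on with
  | _ n ih =>
    rcases n with _ | n
    · have h1 := hrec 0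
      simp only [zero_add, Finset.sum_range_one, Nat.sub_self, hm0, mul_one] at h1
      simp only [zero_add]
      rw [← h1]
      exact (hpos 1).le
    · have h1 := hrec (n + 1)
      rw [Finset.sum_range_succ, Nat.sub_self, hm0, mul_one] at h1
      have h2 : m (n + 1) * ∑ j ∈ range (n + 1), (-coeff (j + 1) M⁻¹) * m (n + 1 - j) ≤
          m (n + 1) * m (n + 1 + 1) := by
        rw [mul_comm (m (n + 1)) (m (n + 1 + 1)), Finset.mul_sum]
        conv_rhs => rw [hrec n, Finset.mul_sum]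
        refine Finset.sum_le_sum fun j hj => ?_
        have hj' : j ≤ n := Nat.lt_succ_iff.1 (Finset.mem_range.1 hj)
        have h3 := hlc (n - j) (n + 1) (by omega)
        have h4 : n - j + 1 = n + 1 - j := by omega
        rw [h4] at h3
        have h5 := mul_le_mul_of_nonneg_left h3 (ih j (by omega))
        linarith
      have h6 := le_of_mul_le_mul_left h2 (hpos _)
      simp only
      linarith

/-- `1 / (1 - P)` has nonnegative coefficients. -/
theorem coeff_inv_one_sub_nonneg {P : ℝ⟦X⟧} (hP0 : constantCoeff P = 0)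
    (hP : ∀ n, 0 ≤ coeff n P) (n : ℕ) : 0 ≤ coeff n (1 - P)⁻¹ := by
  have h1 : (1 - P) * (1 - P)⁻¹ = 1 := PowerSeries.mul_inv_cancel _ (by
    rw [map_sub, map_one, hP0, sub_zero]; exact one_ne_zero)
  induction n using Nat.strong_induction_on with
  | _ n ih =>
    have h2 : (1 - P)⁻¹ = 1 + P * (1 - P)⁻¹ := by linear_combination h1
    rw [h2, map_add, coeff_mul]
    apply add_nonneg
    · rw [coeff_one]
      split_ifs <;> norm_num
    · refine Finset.sum_nonneg fun p hp => ?_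
      have hp' := Finset.HasAntidiagonal.mem_antidiagonal.1 hp
      rcases Nat.eq_zero_or_pos p.1 with h0 | h0
      · rw [h0, coeff_zero_eq_constantCoeff_apply, hP0, zero_mul]
      · exact mul_nonneg (hP _) (ih _ (by omega))

theorem coeff_mul_nonneg {A B : ℝ⟦X⟧} (hA : ∀ n, 0 ≤ coeff n A) (hB : ∀ n, 0 ≤ coeff n B)
    (n : ℕ) : 0 ≤ coeff n (A * B) := by
  rw [coeff_mul]
  exact Finset.sum_nonneg fun p _ => mul_nonneg (hA _) (hB _)

/-- The extremal real series `2 M - 1`. -/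
noncomputable def GR (m : ℕ → ℝ) : ℝ⟦X⟧ := 2 * PowerSeries.mk m - 1

theorem constantCoeff_GR {m : ℕ → ℝ} (hm0 : m 0 = 1) : constantCoeff (GR m) = 1 := by
  have : constantCoeff (PowerSeries.mk m) = 1 := by
    rw [← coeff_zero_eq_constantCoeff_apply, coeff_mk, hm0]
  rw [GR, map_sub, map_mul, this, map_one, map_ofNat]
  norm_num

theorem coeff_GR_succ (m : ℕ → ℝ) (n : ℕ) : coeff (n + 1) (GR m) = 2 * m (n + 1) := by
  rw [GR, two_eq_C, map_sub, coeff_C_mul, coeff_mk, coeff_one, if_neg (Nat.succ_ne_zero n),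
    sub_zero]

theorem coeff_pw_GR_nonneg {κ m : ℕ → ℝ} (hκ : ∀ n, 0 ≤ κ n) (hm0 : m 0 = 1)
    (hm : ∀ n, m (n + 1) = ∑ j ∈ range (n + 1), κ j * m (n - j)) {s : ℝ} (hs : 0 ≤ s) (n : ℕ) :
    0 ≤ coeff n (pw s (GR m)) := by
  set M : ℝ⟦X⟧ := PowerSeries.mk m with hM
  set P : ℝ⟦X⟧ := X * PowerSeries.mk κ with hP
  have hP0 : constantCoeff P = 0 := by rw [hP, map_mul, constantCoeff_X, zero_mul]
  have hPn : ∀ n, 0 ≤ coeff n P := by
    intro n
    rcases n with _ | n
    · rw [coeff_zero_eq_constantCoeff_apply, hP0]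
    · rw [hP, coeff_succ_X_mul, coeff_mk]
      exact hκ n
  have h1 : (1 - P) * M = 1 := by
    ext n
    rw [sub_mul, one_mul, map_sub, hP, mul_assoc]
    rcases n with _ | n
    · simp [hM, hm0]
    · rw [coeff_succ_X_mul, coeff_mul, Finset.Nat.sum_antidiagonal_eq_sum_range_succ_mk, coeff_one,
        if_neg (Nat.succ_ne_zero n)]
      simp only [hM, coeff_mk]
      rw [hm n, sub_self]
  have hG1 := constantCoeff_GR hm0
  -- derivative
  have h2 : derivative ℝ M = derivative ℝ P * M * M := by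
    have h3 := congrArg (derivative ℝ) h1
    rw [Derivation.leibniz, Derivation.map_one_eq_zero, map_sub, Derivation.map_one_eq_zero,
      smul_eq_mul, smul_eq_mul, zero_sub] at h3
    linear_combination M * h3 - derivative ℝ M * h1
  have h4 : derivative ℝ (GR m) = 2 * derivative ℝ M := by
    rw [GR, map_sub, Derivation.map_one_eq_zero, sub_zero, Derivation.leibniz, smul_eq_mul,
      smul_eq_mul, two_eq_C, derivative_C, mul_zero, add_zero]
  have hGinv : GR m * (GR m)⁻¹ = 1 :=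
    PowerSeries.mul_inv_cancel _ (by rw [hG1]; exact one_ne_zero)
  have hGP : GR m = (1 + P) * M := by
    rw [GR, ← hM]
    linear_combination h1
  have hPP : (1 - P * P) * (1 - P * P)⁻¹ = 1 := PowerSeries.mul_inv_cancel _ (by
    rw [map_sub, map_one, map_mul, hP0, mul_zero, sub_zero]; exact one_ne_zero)
  have hlog : logD (GR m) = 2 * (derivative ℝ P * (1 - P * P)⁻¹) := by
    have h5 : logD (GR m) * GR m = 2 * (derivative ℝ P * (1 - P * P)⁻¹) * GR m := by
      rw [logD_mul_self hG1, h4, h2, hGP]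
      linear_combination (-2 * derivative ℝ P * M * M) * hPP +
        (2 * derivative ℝ P * (1 - P * P)⁻¹ * M * (1 + P)) * h1
    have h6 := congrArg (fun z => z * (GR m)⁻¹) h5
    simp only [mul_assoc, hGinv, mul_one] at h6
    rw [h6]
  rw [pw, hlog]
  apply coeff_ode_nonneg
  intro k
  rw [coeff_C_mul, two_eq_C, coeff_C_mul]
  apply mul_nonneg hs
  apply mul_nonneg zero_le_two
  apply coeff_mul_nonneg
  · intro j
    rw [coeff_derivative]
    exact mul_nonneg (hPn _) (by positivity)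
  · apply coeff_inv_one_sub_nonneg
    · rw [map_mul, hP0, mul_zero]
    · exact coeff_mul_nonneg hPn hPn

/-- Coefficientwise majorisation. -/
def Maj (A : ℂ⟦X⟧) (B : ℝ⟦X⟧) : Prop := ∀ n, ‖coeff n A‖ ≤ coeff n B

theorem Maj.mul {A A' : ℂ⟦X⟧} {B B' : ℝ⟦X⟧} (h : Maj A B) (h' : Maj A' B') :
    Maj (A * A') (B * B') := by
  intro n
  rw [coeff_mul, coeff_mul]
  refine (norm_sum_le _ _).trans (Finset.sum_le_sum fun p _ => ?_)
  rw [norm_mul]
  exact mul_le_mul (h _) (h' _) (norm_nonneg _) ((norm_nonneg _).trans (h _))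

theorem Maj.one : Maj 1 1 := by
  intro n
  rw [coeff_one, coeff_one]
  split_ifs <;> simp

theorem Maj.pow {A : ℂ⟦X⟧} {B : ℝ⟦X⟧} (h : Maj A B) (n : ℕ) : Maj (A ^ n) (B ^ n) := by
  induction n with
  | zero => simpa using Maj.one
  | succ n ih =>
    rw [pow_succ, pow_succ]
    exact ih.mul h

theorem Maj.convex {ι : Type} [Fintype ι] {lam : ι → ℝ} (hl : ∀ i, 0 ≤ lam i)
    (hl1 : ∑ i, lam i = 1) {A : ι → ℂ⟦X⟧} {B : ℝ⟦X⟧} (h : ∀ i, Maj (A i) B) :
    Maj (∑ i, PowerSeries.C (lam i : ℂ) * A i) B := by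
  intro n
  rw [map_sum]
  calc ‖∑ i, coeff n (PowerSeries.C (lam i : ℂ) * A i)‖
      ≤ ∑ i, ‖coeff n (PowerSeries.C (lam i : ℂ) * A i)‖ := norm_sum_le _ _
    _ ≤ ∑ i, lam i * coeff n B := by
        refine Finset.sum_le_sum fun i _ => ?_
        rw [coeff_C_mul, norm_mul, Complex.norm_real, Real.norm_of_nonneg (hl i)]
        exact mul_le_mul_of_nonneg_left (h i n) (hl i)
    _ = coeff n B := by rw [← Finset.sum_mul, hl1, one_mul]

/-- The complex series `G(x X)`. -/
noncomputable def Gx (m : ℕ → ℝ) (x : ℂ) : ℂ⟦X⟧ := rescale x (map Complex.ofRealHom (GR m))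

/-- The series `1 + ∑ 2 m_n c_n X ^ n` (when `m 0 = c 0 = 1`). -/
noncomputable def HH (m : ℕ → ℝ) (c : ℕ → ℂ) : ℂ⟦X⟧ :=
  2 * PowerSeries.mk (fun n => (m n : ℂ) * c n) - 1

theorem constantCoeff_HH {m : ℕ → ℝ} {c : ℕ → ℂ} (hm0 : m 0 = 1) (hc : c 0 = 1) :
    constantCoeff (HH m c) = 1 := by
  have : constantCoeff (PowerSeries.mk (fun n => (m n : ℂ) * c n)) = 1 := by
    rw [← coeff_zero_eq_constantCoeff_apply, coeff_mk, hm0, hc]
    simp
  rw [HH, map_sub, map_mul, this, map_one, map_ofNat]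
  norm_num

theorem coeff_HH_succ (m : ℕ → ℝ) (c : ℕ → ℂ) (n : ℕ) :
    coeff (n + 1) (HH m c) = 2 * ((m (n + 1) : ℂ) * c (n + 1)) := by
  rw [HH, two_eq_C, map_sub, coeff_C_mul, coeff_mk, coeff_one, if_neg (Nat.succ_ne_zero n),
    sub_zero]

theorem Gx_eq (m : ℕ → ℝ) (x : ℂ) : Gx m x = HH m (fun n => x ^ n) := by
  ext n
  rw [Gx, HH, GR, coeff_rescale, coeff_map, two_eq_C, two_eq_C]
  simp only [map_sub, coeff_C_mul, coeff_mk, coeff_one]
  split_ifs with h
  · rw [h]
    simp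
  · simp
    ring

theorem map_GR_constantCoeff {m : ℕ → ℝ} (hm0 : m 0 = 1) :
    constantCoeff (map Complex.ofRealHom (GR m)) = 1 := by
  rw [← coeff_zero_eq_constantCoeff_apply, coeff_map, coeff_zero_eq_constantCoeff_apply,
    constantCoeff_GR hm0, map_one]

theorem constantCoeff_Gx {m : ℕ → ℝ} (hm0 : m 0 = 1) (x : ℂ) : constantCoeff (Gx m x) = 1 := by
  rw [Gx, constantCoeff_rescale, map_GR_constantCoeff hm0]

theorem pw_Gx {m : ℕ → ℝ} (hm0 : m 0 = 1) (x : ℂ) (s : ℝ) :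
    pw (s : ℂ) (Gx m x) = rescale x (map Complex.ofRealHom (pw s (GR m))) := by
  rw [Gx, pw_rescale _ _ (map_GR_constantCoeff hm0)]
  congr 1
  exact pw_map Complex.ofRealHom s (constantCoeff_GR hm0)

/-- The bound for averages. -/
theorem maj_pw_avg {κ m : ℕ → ℝ} (hκ : ∀ n, 0 ≤ κ n) (hm0 : m 0 = 1)
    (hm : ∀ n, m (n + 1) = ∑ j ∈ range (n + 1), κ j * m (n - j)) {ι : Type} [Fintype ι]
    {lam : ι → ℝ} (hl : ∀ i, 0 ≤ lam i) (hl1 : ∑ i, lam i = 1) {x : ι → ℂ}
    (hx : ∀ i, ‖x i‖ = 1) {p : ℝ} (hp : 1 ≤ p) :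
    Maj (pw (p : ℂ) (HH m (fun n => ∑ i, (lam i : ℂ) * x i ^ n))) (pw p (GR m)) := by
  set H : ℂ⟦X⟧ := HH m (fun n => ∑ i, (lam i : ℂ) * x i ^ n) with hH
  have hHrep : IsRep κ H := isRep_sum hm0 hm lam hl hl1 x hx
  have hH1 : constantCoeff H = 1 := hHrep.constantCoeff
  have hG1 := constantCoeff_GR hm0
  have hGrep : ∀ i, IsRep κ (Gx m (x i)) := by
    intro i
    have h1 := isRep_sum hm0 hm (ι := Unit) (fun _ => (1 : ℝ)) (fun _ => zero_le_one) (by simp)
      (fun _ => x i) (fun _ => hx i)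
    have h2 : (fun n => ∑ _j : Unit, ((1 : ℝ) : ℂ) * x i ^ n) = fun n => x i ^ n := by
      funext n
      simp
    rw [Gx_eq, ← h2]
    exact h1
  have hsum : H = ∑ i, PowerSeries.C (lam i : ℂ) * Gx m (x i) := by
    have h0 : ∀ n, coeff n (∑ i, PowerSeries.C (lam i : ℂ) * Gx m (x i)) =
        ∑ i, (lam i : ℂ) * coeff n (Gx m (x i)) := by
      intro n
      rw [map_sum]
      refine Finset.sum_congr rfl fun i _ => ?_
      rw [coeff_C_mul]
    ext n
    rw [h0]
    rcases n with _ | n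
    · simp only [coeff_zero_eq_constantCoeff_apply, constantCoeff_Gx hm0, hH1, mul_one]
      exact_mod_cast hl1.symm
    · rw [hH, coeff_HH_succ, Finset.mul_sum, Finset.mul_sum]
      refine Finset.sum_congr rfl fun i _ => ?_
      rw [Gx_eq, coeff_HH_succ]
      ring
  have hMH : Maj H (GR m) := by
    intro n
    rcases n with _ | n
    · rw [coeff_zero_eq_constantCoeff_apply, coeff_zero_eq_constantCoeff_apply, hH1, hG1]
      simp
    · rw [coeff_GR_succ]
      exact hHrep.norm_coeff_le hκ hm0 hm n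
  -- fractional part
  have key : ∀ s : ℝ, 0 ≤ s → s ≤ 1 → Maj (H * pw (s : ℂ) H) (pw s (GR m) * GR m) := by
    intro s hs0 hs1
    have h1 : ∀ i, Maj (Gx m (x i) * pw (s : ℂ) H) (pw s (GR m) * GR m) := by
      intro i
      have h2 : Gx m (x i) * pw (s : ℂ) H =
          pw (s : ℂ) (Gx m (x i)) * (pw (s : ℂ) H * pw (1 - (s : ℂ)) (Gx m (x i))) := by
        have h3 : Gx m (x i) = pw (s : ℂ) (Gx m (x i)) * pw (1 - (s : ℂ)) (Gx m (x i)) := by
          rw [← pw_add, add_sub_cancel, pw_one (constantCoeff_Gx hm0 _)]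
        linear_combination (pw (s : ℂ) H) * h3
      rw [h2]
      apply Maj.mul
      · intro n
        rw [pw_Gx hm0, coeff_rescale, coeff_map, norm_mul, norm_pow, hx i, one_pow, one_mul,
          Complex.ofRealHom_eq_coe, Complex.norm_real,
          Real.norm_of_nonneg (coeff_pw_GR_nonneg hκ hm0 hm hs0 n)]
      · intro n
        rcases n with _ | n
        · rw [coeff_zero_eq_constantCoeff_apply, coeff_zero_eq_constantCoeff_apply, map_mul,
            constantCoeff_pw, constantCoeff_pw, hG1]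
          simp
        · rw [coeff_GR_succ]
          exact InX.norm_coeff_pw_mul_le hκ hm0 hm hHrep.inX (hGrep i).inX hs0 hs1 n
    have h3 : H * pw (s : ℂ) H =
        ∑ i, PowerSeries.C (lam i : ℂ) * (Gx m (x i) * pw (s : ℂ) H) := by
      conv_lhs => rw [hsum, Finset.sum_mul]
      rw [← hsum]
      refine Finset.sum_congr rfl fun i _ => ?_
      rw [mul_assoc]
    rw [h3]
    exact Maj.convex hl hl1 h1
  -- conclusion
  set N : ℕ := ⌊p - 1⌋₊ with hN
  set s : ℝ := p - 1 - N with hs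
  have hs0 : 0 ≤ s := sub_nonneg.2 (Nat.floor_le (by linarith))
  have hs1 : s ≤ 1 := by
    have := Nat.lt_floor_add_one (p - 1)
    rw [← hN] at this
    linarith
  have hp1 : p = (N : ℝ) + (1 + s) := by rw [hs]; ring
  have e1 : pw (p : ℂ) H = H ^ N * (H * pw (s : ℂ) H) := by
    have : (p : ℂ) = (N : ℂ) + (1 + (s : ℂ)) := by
      rw [hp1]
      push_cast
      ring
    rw [this, pw_add, pw_add, pw_natCast N hH1, pw_one hH1]
  have e2 : pw p (GR m) = GR m ^ N * (pw s (GR m) * GR m) := by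
    rw [hp1, pw_add, pw_add, pw_natCast N hG1, pw_one hG1, mul_comm (GR m) (pw s (GR m))]
  rw [e1, e2]
  exact (hMH.pow N).mul (key s hs0 hs1)

/-- The bound passes to pointwise limits. -/
theorem maj_of_tendsto {m : ℕ → ℝ} (hm0 : m 0 = 1) {ι : Type} {l : Filter ι} [l.NeBot]
    {c : ι → ℕ → ℂ} {c₀ : ℕ → ℂ} (hc1 : ∀ i, c i 0 = 1) (hc0 : c₀ 0 = 1)
    (hc : ∀ n, Filter.Tendsto (fun i => c i n) l (nhds (c₀ n))) {p : ℂ} {B : ℝ⟦X⟧}
    (h : ∀ i, Maj (pw p (HH m (c i))) B) : Maj (pw p (HH m c₀)) B := by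
  intro n
  have h1 : Filter.Tendsto (fun i => coeff n (pw p (HH m (c i)))) l
      (nhds (coeff n (pw p (HH m c₀)))) := by
    apply tendsto_coeff_pw tendsto_const_nhds (fun i => constantCoeff_HH hm0 (hc1 i))
      (constantCoeff_HH hm0 hc0)
    intro k
    rcases k with _ | k
    · simp only [coeff_zero_eq_constantCoeff_apply, constantCoeff_HH hm0 hc0,
        fun i => constantCoeff_HH hm0 (hc1 i)]
      exact tendsto_const_nhds
    · simp only [coeff_HH_succ]
      exact ((hc (k + 1)).const_mul _).const_mul _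
  exact le_of_tendsto h1.norm (Filter.Eventually.of_forall fun i => h i n)

end Pool.Agent.BazB1
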