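import Mathlib
import Pool.Agent.Lib_MP_0e1b7e_an.Bound

/-!
# Coefficients of functions with positive real part as limits of averages
-/

namespace Pool.Agent.BazB1

open Finset Filter Topology
open scoped Nat

/-- Taylor coefficients at the origin. -/
noncomputable def tc (f : ℂ → ℂ) (n : ℕ) : ℂ := iteratedDeriv n f 0 / n !

theorem hasSum_tc {f : ℂ → ℂ} (hf : DifferentiableOn ℂ f (Metric.ball 0 1)) {z : ℂ}
    (hz : z ∈ Metric.ball (0 : ℂ) 1) : HasSum (fun n => tc f n * z ^ n) (f z) := by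
  have h := Complex.hasSum_taylorSeries_on_ball hf hz
  refine h.congr_fun ?_ |> fun h' => h'
  intro n
  simp only [tc, sub_zero, smul_eq_mul]
  ring

/-- The primitive root of unity. -/
noncomputable def om (N : ℕ) : ℂ := Complex.exp (2 * Real.pi * Complex.I / N)

theorem norm_om (N : ℕ) : ‖om N‖ = 1 := by
  rw [om, show 2 * (Real.pi : ℂ) * Complex.I / N = ((2 * Real.pi / N : ℝ) : ℂ) * Complex.I by
    push_cast; ring, Complex.norm_exp_ofReal_mul_I]

theorem om_ne_zero (N : ℕ) : om N ≠ 0 := Complex.exp_ne_zero _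

/-- Average of the `q`-th powers of the `N`-th roots of unity. -/
noncomputable def dl (N : ℕ) (q : ℤ) : ℂ := (∑ j ∈ range N, (om N ^ j) ^ q) / N

theorem norm_dl_le (N : ℕ) (q : ℤ) : ‖dl N q‖ ≤ 1 := by
  rw [dl, norm_div, Complex.norm_natCast]
  rcases Nat.eq_zero_or_pos N with h | h
  · rw [h]
    simp
  · rw [div_le_one (by exact_mod_cast h)]
    refine (norm_sum_le _ _).trans ?_
    have h1 : ∀ j ∈ range N, ‖(om N ^ j) ^ q‖ = 1 := by
      intro j _
      rw [norm_zpow, norm_pow, norm_om, one_pow, one_zpow]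
    rw [Finset.sum_congr rfl h1]
    simp

theorem dl_zero {N : ℕ} (hN : N ≠ 0) : dl N 0 = 1 := by
  rw [dl]
  simp only [zpow_zero, Finset.sum_const, card_range, nsmul_eq_mul, mul_one]
  exact div_self (by exact_mod_cast hN)

theorem dl_eq_zero {N : ℕ} {q : ℤ} (hq : q ≠ 0) (hqN : |q| < N) : dl N q = 0 := by
  have hN : N ≠ 0 := by
    rintro rfl
    have := abs_nonneg q
    simp only [Nat.cast_zero] at hqN
    omega
  have hp : IsPrimitiveRoot (om N) N := Complex.isPrimitiveRoot_exp N hN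
  have h1 : om N ^ q ≠ 1 := by
    intro h
    have h2 := (hp.zpow_eq_one_iff_dvd q).1 h
    have h3 := Int.le_of_dvd (abs_pos.2 hq) ((dvd_abs _ _).2 h2)
    omega
  rw [dl]
  have h2 : ∑ j ∈ range N, (om N ^ j) ^ q = ∑ j ∈ range N, (om N ^ q) ^ j := by
    refine Finset.sum_congr rfl fun j _ => ?_
    rw [← zpow_natCast, ← zpow_natCast, ← zpow_mul, ← zpow_mul, mul_comm]
  have h3 : (om N ^ q) ^ N = 1 := by
    rw [← zpow_natCast, ← zpow_mul, mul_comm, zpow_mul, zpow_natCast, hp.pow_eq_one, one_zpow]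
  rw [h2, geom_sum_eq h1, h3, sub_self, zero_div, zero_div]

theorem tendsto_dl (q : ℤ) : Tendsto (fun N : ℕ => dl (N + 1) q) atTop
    (𝓝 (if q = 0 then 1 else 0)) := by
  split_ifs with h
  · subst h
    simp only [fun N : ℕ => dl_zero (Nat.succ_ne_zero N)]
    exact tendsto_const_nhds
  · apply tendsto_const_nhds.congr'
    filter_upwards [eventually_ge_atTop q.natAbs] with N hN
    rw [dl_eq_zero h]
    push_cast
    have : |q| = (q.natAbs : ℤ) := Int.abs_eq_natAbs q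
    omega

/-- Averages over roots of unity pick out Taylor coefficients. -/
theorem tendsto_avg {a : ℕ → ℂ} (ha : Summable fun n => ‖a n‖) (k : ℤ) :
    Tendsto (fun N : ℕ => (∑ j ∈ range (N + 1), (∑' n : ℕ, a n * (om (N + 1) ^ j) ^ n) *
      (om (N + 1) ^ j) ^ k) / ((N + 1 : ℕ) : ℂ)) atTop
      (𝓝 (∑' n : ℕ, a n * (if (n : ℤ) + k = 0 then 1 else 0))) := by
  have h1 : ∀ N : ℕ, (∑ j ∈ range (N + 1), (∑' n : ℕ, a n * (om (N + 1) ^ j) ^ n) *
      (om (N + 1) ^ j) ^ k) / ((N + 1 : ℕ) : ℂ) = ∑' n : ℕ, a n * dl (N + 1) ((n : ℤ) + k) := by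
    intro N
    have hn : ∀ j, ‖om (N + 1) ^ j‖ = 1 := fun j => by rw [norm_pow, norm_om, one_pow]
    have h2 : ∀ j ∈ range (N + 1), Summable fun n : ℕ =>
        a n * (om (N + 1) ^ j) ^ n * (om (N + 1) ^ j) ^ k := by
      intro j _
      apply Summable.of_norm
      refine ha.congr fun n => ?_
      rw [norm_mul, norm_mul, norm_pow, norm_zpow, hn, one_pow, one_zpow, mul_one, mul_one]
    simp only [← tsum_mul_right]
    rw [← Summable.tsum_finsetSum h2, ← tsum_div_const]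
    refine tsum_congr fun n => ?_
    rw [dl, mul_div_assoc', Finset.mul_sum]
    congr 1
    refine Finset.sum_congr rfl fun j _ => ?_
    rw [zpow_add₀ (pow_ne_zero _ (om_ne_zero _)), zpow_natCast, mul_assoc]
  simp only [h1]
  refine tendsto_tsum_of_dominated_convergence ha ?_ ?_
  · intro n
    exact (tendsto_dl _).const_mul _
  · filter_upwards with N n
    rw [norm_mul]
    exact mul_le_of_le_one_right (norm_nonneg _) (norm_dl_le _ _)

/-- The normalised moments of a function with positive real part. -/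
noncomputable def mom (h : ℂ → ℂ) (r : ℝ) (n : ℕ) : ℂ :=
  if n = 0 then 1 else tc h n / 2 * (r : ℂ) ^ n

theorem maj_mom_lt {κ m : ℕ → ℝ} (hκ : ∀ n, 0 ≤ κ n) (hm0 : m 0 = 1)
    (hm : ∀ n, m (n + 1) = ∑ j ∈ range (n + 1), κ j * m (n - j)) {h : ℂ → ℂ}
    (hd : DifferentiableOn ℂ h (Metric.ball 0 1)) (h0 : h 0 = 1)
    (hpos : ∀ z ∈ Metric.ball (0 : ℂ) 1, 0 < (h z).re) {r : ℝ} (hr0 : 0 ≤ r) (hr1 : r < 1)
    {p : ℝ} (hp : 1 ≤ p) : Maj (pw (p : ℂ) (HH m (mom h r))) (pw p (GR m)) := by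
  have hball : ∀ ζ : ℂ, ‖ζ‖ = 1 → (r : ℂ) * ζ ∈ Metric.ball (0 : ℂ) 1 := by
    intro ζ hζ
    rw [mem_ball_zero_iff, norm_mul, hζ, mul_one, Complex.norm_real, Real.norm_of_nonneg hr0]
    exact hr1
  set a : ℕ → ℂ := fun n => tc h n * (r : ℂ) ^ n with ha
  have hsum : Summable fun n => ‖a n‖ := by
    have h1 := hasSum_tc hd (hball 1 norm_one)
    simp only [mul_one] at h1
    exact h1.summable.norm
  have hval : ∀ ζ : ℂ, ‖ζ‖ = 1 → h (r * ζ) = ∑' n : ℕ, a n * ζ ^ n := by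
    intro ζ hζ
    rw [← (hasSum_tc hd (hball ζ hζ)).tsum_eq]
    refine tsum_congr fun n => ?_
    rw [ha, mul_pow]
    ring
  have ha0 : a 0 = 1 := by
    simp [ha, tc, h0]
  have hn : ∀ N j, ‖om (N + 1) ^ j‖ = 1 := fun N j => by rw [norm_pow, norm_om, one_pow]
  -- the averages
  set R : ℕ → ℕ → ℝ := fun N j => (h (r * om (N + 1) ^ j)).re with hR
  have hRpos : ∀ N j, 0 < R N j := fun N j => hpos _ (hball _ (hn N j))
  have key : ∀ k : ℕ, Tendsto (fun N : ℕ => (∑ j ∈ range (N + 1), (R N j : ℂ) *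
      ((om (N + 1) ^ j)⁻¹) ^ k) / ((N + 1 : ℕ) : ℂ)) atTop (𝓝 (mom h r k)) := by
    intro k
    have t1 := tendsto_avg hsum (-(k : ℤ))
    have t2 := tendsto_avg hsum (k : ℤ)
    have e1 : ∑' n : ℕ, a n * (if (n : ℤ) + -(k : ℤ) = 0 then 1 else 0) = a k := by
      rw [tsum_eq_single k]
      · simp
      · intro n hnk
        rw [if_neg (by omega), mul_zero]
    have e2 : ∑' n : ℕ, a n * (if (n : ℤ) + (k : ℤ) = 0 then 1 else 0) =
        if k = 0 then 1 else 0 := by
      rw [tsum_eq_single 0]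
      · by_cases hk : k = 0
        · simp [hk, ha0]
        · simp [hk]
      · intro n hn0
        rw [if_neg (by omega), mul_zero]
    rw [e1] at t1
    rw [e2] at t2
    have t3 := (t1.add ((Complex.continuous_conj.tendsto _).comp t2)).div_const 2
    have e3 : (a k + (starRingEnd ℂ) (if k = 0 then 1 else 0)) / 2 = mom h r k := by
      rw [mom]
      by_cases hk : k = 0
      · simp only [hk, if_true, ha0, map_one]
        norm_num
      · simp only [hk, if_false, map_zero, add_zero, ha]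
        ring
    rw [e3] at t3
    refine t3.congr fun N => ?_
    have hN : ((N + 1 : ℕ) : ℂ) ≠ 0 := by exact_mod_cast Nat.succ_ne_zero N
    simp only [Function.comp_apply, map_div₀, map_sum, map_natCast, map_mul]
    rw [← add_div, ← Finset.sum_add_distrib, div_right_comm, Finset.sum_div]
    congr 1
    refine Finset.sum_congr rfl fun j _ => ?_
    rw [← hval _ (hn N j)]
    have hz : om (N + 1) ^ j ≠ 0 := pow_ne_zero _ (om_ne_zero _)
    have e4 : (starRingEnd ℂ) ((om (N + 1) ^ j) ^ (k : ℤ)) = (om (N + 1) ^ j) ^ (-(k : ℤ)) := by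
      rw [zpow_neg, map_zpow₀, ← inv_zpow]
      congr 1
      exact (Complex.inv_eq_conj (hn N j)).symm
    have e5 : ((om (N + 1) ^ j)⁻¹) ^ k = (om (N + 1) ^ j) ^ (-(k : ℤ)) := by
      rw [zpow_neg, zpow_natCast, inv_pow]
    rw [e4, e5, ← add_mul, Complex.add_conj, hR]
    push_cast
    ring
  -- the approximating averages
  set S : ℕ → ℝ := fun N => ∑ j ∈ range (N + 1), R N j with hS
  have hSpos : ∀ N, 0 < S N := fun N => Finset.sum_pos (fun j _ => hRpos N j) ⟨0, by simp⟩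
  set c : ℕ → ℕ → ℂ := fun N k =>
    ∑ i : Fin (N + 1), ((R N i / S N : ℝ) : ℂ) * ((om (N + 1) ^ (i : ℕ))⁻¹) ^ k with hc
  have hlam : ∀ N, ∑ i : Fin (N + 1), R N i / S N = 1 := by
    intro N
    rw [← Finset.sum_div, ← Finset.sum_range (fun j => R N j)]
    exact div_self (hSpos N).ne'
  refine maj_of_tendsto (l := atTop) (c := c) hm0 ?_ (by simp [mom]) ?_ ?_
  · intro N
    simp only [hc, pow_zero, mul_one]
    rw [← Complex.ofReal_sum, hlam, Complex.ofReal_one]
  · intro k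
    have h1 : Tendsto (fun N : ℕ => ((∑ j ∈ range (N + 1), (R N j : ℂ) *
        ((om (N + 1) ^ j)⁻¹) ^ k) / ((N + 1 : ℕ) : ℂ)) / ((∑ j ∈ range (N + 1), (R N j : ℂ) *
        ((om (N + 1) ^ j)⁻¹) ^ 0) / ((N + 1 : ℕ) : ℂ))) atTop (𝓝 (mom h r k / mom h r 0)) :=
      (key k).div (key 0) (by simp [mom])
    have h2 : mom h r k / mom h r 0 = mom h r k := by
      simp [mom]
    rw [h2] at h1
    refine h1.congr fun N => ?_
    have hN : ((N + 1 : ℕ) : ℂ) ≠ 0 := by exact_mod_cast Nat.succ_ne_zero N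
    simp only [pow_zero, mul_one]
    rw [div_div_div_cancel_right₀ hN, hc]
    simp only
    rw [← Finset.sum_range (fun j => ((R N j / S N : ℝ) : ℂ) * ((om (N + 1) ^ j)⁻¹) ^ k),
      Finset.sum_div]
    refine Finset.sum_congr rfl fun j _ => ?_
    rw [hS]
    push_cast
    ring
  · intro N
    exact maj_pw_avg (ι := Fin (N + 1)) (lam := fun i : Fin (N + 1) => R N (i : ℕ) / S N)
      (x := fun i : Fin (N + 1) => (om (N + 1) ^ (i : ℕ))⁻¹) hκ hm0 hm
      (fun i => (div_pos (hRpos N i) (hSpos N)).le) (hlam N)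
      (fun i => by rw [norm_inv, hn, inv_one]) hp

theorem maj_mom {κ m : ℕ → ℝ} (hκ : ∀ n, 0 ≤ κ n) (hm0 : m 0 = 1)
    (hm : ∀ n, m (n + 1) = ∑ j ∈ range (n + 1), κ j * m (n - j)) {h : ℂ → ℂ}
    (hd : DifferentiableOn ℂ h (Metric.ball 0 1)) (h0 : h 0 = 1)
    (hpos : ∀ z ∈ Metric.ball (0 : ℂ) 1, 0 < (h z).re)
    {p : ℝ} (hp : 1 ≤ p) : Maj (pw (p : ℂ) (HH m (mom h 1))) (pw p (GR m)) := by
  have hr : ∀ i : ℕ, 0 ≤ 1 - 1 / ((i : ℝ) + 1) ∧ 1 - 1 / ((i : ℝ) + 1) < 1 := by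
    intro i
    have h1 : (0 : ℝ) < (i : ℝ) + 1 := by positivity
    constructor
    · rw [sub_nonneg, div_le_one h1]
      linarith [(Nat.cast_nonneg i : (0 : ℝ) ≤ i)]
    · have := one_div_pos.2 h1
      linarith
  have ht : Tendsto (fun i : ℕ => 1 - 1 / ((i : ℝ) + 1)) atTop (𝓝 1) := by
    have := (tendsto_one_div_add_atTop_nhds_zero_nat (𝕜 := ℝ)).const_sub 1
    rwa [sub_zero] at this
  refine maj_of_tendsto (l := atTop) (c := fun i : ℕ => mom h (1 - 1 / ((i : ℝ) + 1))) hm0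
    (by simp [mom]) (by simp [mom]) ?_ ?_
  · intro n
    simp only [mom]
    split_ifs with hn
    · exact tendsto_const_nhds
    · exact (((Complex.continuous_ofReal.tendsto _).comp ht).pow n).const_mul _
  · intro i
    exact maj_mom_lt hκ hm0 hm hd h0 hpos (hr i).1 (hr i).2 hp

end Pool.Agent.BazB1
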