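import Mathlib
import Pool.Agent.Lib_MP_0e1b7e_an.Carath

/-!
# From analytic functions on the disc to power series
-/

namespace Pool.Agent.BazB1

open Finset Filter Topology PowerSeries
open scoped Nat

/-- The Taylor series at the origin. -/
noncomputable def TT (f : ℂ → ℂ) : ℂ⟦X⟧ := PowerSeries.mk (tc f)

theorem contDiffAt_of {f : ℂ → ℂ} (hf : DifferentiableOn ℂ f (Metric.ball 0 1)) (n : ℕ) :
    ContDiffAt ℂ n f 0 :=
  (hf.analyticAt (Metric.ball_mem_nhds _ one_pos)).contDiffAt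

theorem TT_congr {f g : ℂ → ℂ} (h : ∀ z ∈ Metric.ball (0 : ℂ) 1, f z = g z) : TT f = TT g := by
  have h1 : f =ᶠ[𝓝 0] g := by
    filter_upwards [Metric.ball_mem_nhds (0 : ℂ) one_pos] with z hz
    exact h z hz
  ext n
  rw [TT, TT, coeff_mk, coeff_mk, tc, tc, h1.iteratedDeriv_eq]

theorem TT_add {f g : ℂ → ℂ} (hf : DifferentiableOn ℂ f (Metric.ball 0 1))
    (hg : DifferentiableOn ℂ g (Metric.ball 0 1)) : TT (fun z => f z + g z) = TT f + TT g := by
  ext n
  rw [map_add, TT, TT, TT, coeff_mk, coeff_mk, coeff_mk, tc, tc, tc,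
    iteratedDeriv_fun_add (contDiffAt_of hf n) (contDiffAt_of hg n), add_div]

theorem TT_mul {f g : ℂ → ℂ} (hf : DifferentiableOn ℂ f (Metric.ball 0 1))
    (hg : DifferentiableOn ℂ g (Metric.ball 0 1)) : TT (fun z => f z * g z) = TT f * TT g := by
  ext n
  rw [coeff_mul, TT, TT, TT, coeff_mk, tc,
    iteratedDeriv_fun_mul (contDiffAt_of hf n) (contDiffAt_of hg n),
    Finset.Nat.sum_antidiagonal_eq_sum_range_succ_mk, Finset.sum_div]
  refine Finset.sum_congr rfl fun i hi => ?_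
  have hi' : i ≤ n := Nat.lt_succ_iff.1 (Finset.mem_range.1 hi)
  simp only [coeff_mk, tc]
  rw [Nat.cast_choose ℂ hi']
  have h1 : (n ! : ℂ) ≠ 0 := by exact_mod_cast Nat.factorial_ne_zero n
  have h2 : (i ! : ℂ) ≠ 0 := by exact_mod_cast Nat.factorial_ne_zero i
  have h3 : ((n - i)! : ℂ) ≠ 0 := by exact_mod_cast Nat.factorial_ne_zero _
  field_simp

theorem TT_deriv (f : ℂ → ℂ) : TT (deriv f) = derivative ℂ (TT f) := by
  ext n
  rw [coeff_derivative, TT, TT, coeff_mk, coeff_mk, tc, tc, iteratedDeriv_succ',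
    Nat.factorial_succ]
  push_cast
  have h1 : (n ! : ℂ) ≠ 0 := by exact_mod_cast Nat.factorial_ne_zero n
  have h2 : (n : ℂ) + 1 ≠ 0 := by exact_mod_cast Nat.succ_ne_zero n
  field_simp

theorem TT_const (c : ℂ) : TT (fun _ => c) = PowerSeries.C c := by
  ext n
  rw [TT, coeff_mk, tc, iteratedDeriv_const, coeff_C]
  split_ifs with h
  · simp [h]
  · simp

theorem differentiableOn_id'' : DifferentiableOn ℂ (fun z : ℂ => z) (Metric.ball 0 1) :=
  differentiableOn_id

theorem TT_id : TT (fun z => z) = (X : ℂ⟦X⟧) := by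
  ext n
  rw [TT, coeff_mk, tc, iteratedDeriv_fun_id_zero, coeff_X]
  split_ifs with h
  · simp [h]
  · simp

theorem TT_const_mul (c : ℂ) {f : ℂ → ℂ} (hf : DifferentiableOn ℂ f (Metric.ball 0 1)) :
    TT (fun z => c * f z) = PowerSeries.C c * TT f := by
  rw [TT_mul (differentiableOn_const c) hf, TT_const]

theorem constantCoeff_TT (f : ℂ → ℂ) : constantCoeff (TT f) = f 0 := by
  rw [← coeff_zero_eq_constantCoeff_apply, TT, coeff_mk, tc]
  simp

theorem differentiableOn_exp {L : ℂ → ℂ} (hL : DifferentiableOn ℂ L (Metric.ball 0 1)) (c : ℂ) :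
    DifferentiableOn ℂ (fun z => Complex.exp (c * L z)) (Metric.ball 0 1) :=
  (hL.const_mul c).cexp

theorem deriv_exp_mul {L : ℂ → ℂ} (hL : DifferentiableOn ℂ L (Metric.ball 0 1)) (c : ℂ) {z : ℂ}
    (hz : z ∈ Metric.ball (0 : ℂ) 1) :
    deriv (fun z => Complex.exp (c * L z)) z = c * (deriv L z * Complex.exp (c * L z)) := by
  have h1 := (hL.differentiableAt (Metric.isOpen_ball.mem_nhds hz)).hasDerivAt
  rw [((h1.const_mul c).cexp).deriv]
  ring

theorem differentiableOn_deriv {L : ℂ → ℂ} (hL : DifferentiableOn ℂ L (Metric.ball 0 1)) :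
    DifferentiableOn ℂ (deriv L) (Metric.ball 0 1) := hL.deriv Metric.isOpen_ball

/-- Taylor series of `exp (c L)`: the derivative. -/
theorem derivative_TT_exp {L : ℂ → ℂ} (hL : DifferentiableOn ℂ L (Metric.ball 0 1)) (c : ℂ) :
    derivative ℂ (TT (fun z => Complex.exp (c * L z))) =
      PowerSeries.C c * (TT (deriv L) * TT (fun z => Complex.exp (c * L z))) := by
  have h1 : DifferentiableOn ℂ (fun z => deriv L z * Complex.exp (c * L z)) (Metric.ball 0 1) :=
    (differentiableOn_deriv hL).mul (differentiableOn_exp hL c)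
  rw [← TT_deriv, TT_congr (fun z hz => deriv_exp_mul hL c hz), TT_const_mul c h1,
    TT_mul (differentiableOn_deriv hL) (differentiableOn_exp hL c)]

theorem TT_exp_pw {L : ℂ → ℂ} (hL : DifferentiableOn ℂ L (Metric.ball 0 1)) (hL0 : L 0 = 0)
    {α : ℂ} (hα : α ≠ 0) :
    TT (fun z => Complex.exp (L z)) = pw (1 / α) (TT (fun z => Complex.exp (α * L z))) := by
  have h1 : (fun z => Complex.exp (L z)) = fun z => Complex.exp (1 * L z) := by
    funext z
    rw [one_mul]
  symm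
  apply pw_eq_of
  · rw [constantCoeff_TT, hL0, mul_zero, Complex.exp_zero]
  · rw [constantCoeff_TT, hL0, Complex.exp_zero]
  · rw [h1, derivative_TT_exp hL, derivative_TT_exp hL, map_one, one_mul]
    have h2 : PowerSeries.C (1 / α) * PowerSeries.C α = (1 : ℂ⟦X⟧) := by
      rw [← map_mul, one_div, inv_mul_cancel₀ hα, map_one]
    linear_combination (-(TT (deriv L)) * TT (fun z => Complex.exp (α * L z)) *
      TT (fun z => Complex.exp (1 * L z))) * h2

/-- `exp ((α - 1) L) f' = H + z H' / α` for `f = z exp L`, `H = exp (α L)`. -/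
theorem exp_mul_deriv {f L : ℂ → ℂ} (hL : DifferentiableOn ℂ L (Metric.ball 0 1))
    (hf : ∀ z ∈ Metric.ball (0 : ℂ) 1, f z = z * Complex.exp (L z)) {α : ℂ} (hα : α ≠ 0) {z : ℂ}
    (hz : z ∈ Metric.ball (0 : ℂ) 1) :
    Complex.exp ((α - 1) * L z) * deriv f z = Complex.exp (α * L z) +
      (1 / α) * (z * deriv (fun z => Complex.exp (α * L z)) z) := by
  have h1 := (hL.differentiableAt (Metric.isOpen_ball.mem_nhds hz)).hasDerivAt
  have h2 : deriv f z = Complex.exp (L z) + z * (Complex.exp (L z) * deriv L z) := by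
    have h3 : f =ᶠ[𝓝 z] fun z => z * Complex.exp (L z) := by
      filter_upwards [Metric.isOpen_ball.mem_nhds hz] with w hw
      exact hf w hw
    rw [h3.deriv_eq, ((hasDerivAt_id' z).fun_mul h1.cexp).deriv, one_mul]
  have h4 : Complex.exp (α * L z) = Complex.exp ((α - 1) * L z) * Complex.exp (L z) := by
    rw [← Complex.exp_add]
    congr 1
    ring
  rw [deriv_exp_mul hL α hz, h2, h4]
  field_simp

/-- The sequence `α / (n + α)`. -/
noncomputable def mB (α : ℝ) (n : ℕ) : ℝ := α / (n + α)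

theorem mB_zero {α : ℝ} (hα : 0 < α) : mB α 0 = 1 := by
  rw [mB, Nat.cast_zero, zero_add, div_self hα.ne']

theorem mB_pos {α : ℝ} (hα : 0 < α) (n : ℕ) : 0 < mB α n := by
  rw [mB]
  positivity

theorem mB_lc {α : ℝ} (hα : 0 < α) (i n : ℕ) (h : i ≤ n) :
    mB α (i + 1) * mB α n ≤ mB α (n + 1) * mB α i := by
  have h' : (i : ℝ) ≤ n := by exact_mod_cast h
  rw [mB, mB, mB, mB, div_mul_div_comm, div_mul_div_comm]
  apply div_le_div_of_nonneg_left
  · positivity
  · positivity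
  · push_cast
    nlinarith

theorem exists_kappa {α : ℝ} (hα : 0 < α) : ∃ κ : ℕ → ℝ, (∀ n, 0 ≤ κ n) ∧
    ∀ n, mB α (n + 1) = ∑ j ∈ range (n + 1), κ j * mB α (n - j) :=
  exists_kaluza (mB_zero hα) (mB_pos hα) (mB_lc hα)

/-- The key identification of the series of `exp (α L) = (f / z) ^ α`. -/
theorem TT_exp_eq_HH {f L : ℂ → ℂ} (hL : DifferentiableOn ℂ L (Metric.ball 0 1)) (hL0 : L 0 = 0)
    (hf : ∀ z ∈ Metric.ball (0 : ℂ) 1, f z = z * Complex.exp (L z)) {α : ℝ} (hα : 0 < α) :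
    TT (fun z => Complex.exp ((α : ℂ) * L z)) =
      HH (mB α) (mom (fun z => Complex.exp (((α : ℂ) - 1) * L z) * deriv f z) 1) := by
  have hα' : (α : ℂ) ≠ 0 := by exact_mod_cast hα.ne'
  set H : ℂ → ℂ := fun z => Complex.exp ((α : ℂ) * L z) with hH
  set h : ℂ → ℂ := fun z => Complex.exp (((α : ℂ) - 1) * L z) * deriv f z with hh
  have hHd : DifferentiableOn ℂ H (Metric.ball 0 1) := differentiableOn_exp hL α
  have h1 : TT h = TT H + PowerSeries.C (1 / (α : ℂ)) * (X * derivative ℂ (TT H)) := by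
    have h2 : TT h = TT (fun z => H z + (1 / (α : ℂ)) * (z * deriv H z)) :=
      TT_congr fun z hz => exp_mul_deriv hL hf hα' hz
    have h3 : DifferentiableOn ℂ (fun z => z * deriv H z) (Metric.ball 0 1) :=
      differentiableOn_id.mul (differentiableOn_deriv hHd)
    rw [h2, TT_add hHd (h3.const_mul _), TT_const_mul _ h3,
      TT_mul differentiableOn_id'' (differentiableOn_deriv hHd), TT_id, TT_deriv]
  have hH0 : H 0 = 1 := by simp [hH, hL0]
  ext n
  rcases n with _ | n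
  · rw [coeff_zero_eq_constantCoeff_apply, coeff_zero_eq_constantCoeff_apply, constantCoeff_TT, hH0,
      constantCoeff_HH (mB_zero hα) (by simp [mom])]
  · have h4 := congrArg (coeff (n + 1)) h1
    rw [map_add, coeff_C_mul, coeff_succ_X_mul, coeff_derivative] at h4
    rw [coeff_HH_succ, mom, if_neg (Nat.succ_ne_zero n), mB]
    have h5 : coeff (n + 1) (TT h) = tc h (n + 1) := by rw [TT, coeff_mk]
    rw [h5] at h4
    rw [h4]
    have h6 : ((n : ℂ) + 1 + (α : ℂ)) ≠ 0 := by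
      have : (0 : ℝ) < (n : ℝ) + 1 + α := by positivity
      exact_mod_cast this.ne'
    push_cast
    field_simp
    ring

theorem tc_succ_eq {f L : ℂ → ℂ} (hL : DifferentiableOn ℂ L (Metric.ball 0 1)) (hL0 : L 0 = 0)
    (hf : ∀ z ∈ Metric.ball (0 : ℂ) 1, f z = z * Complex.exp (L z)) {α : ℝ} (hα : 0 < α) (n : ℕ) :
    tc f (n + 1) = coeff n (pw (((1 / α : ℝ)) : ℂ)
      (HH (mB α) (mom (fun z => Complex.exp (((α : ℂ) - 1) * L z) * deriv f z) 1))) := by
  have hα' : (α : ℂ) ≠ 0 := by exact_mod_cast hα.ne'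
  rw [← TT_exp_eq_HH hL hL0 hf hα, Complex.ofReal_div, Complex.ofReal_one, ← TT_exp_pw hL hL0 hα']
  have h1 : TT f = X * TT (fun z => Complex.exp (L z)) := by
    rw [TT_congr hf, TT_mul differentiableOn_id'' hL.cexp, TT_id]
  have h2 : coeff (n + 1) (TT f) = tc f (n + 1) := by rw [TT, coeff_mk]
  rw [← h2, h1, coeff_succ_X_mul]

end Pool.Agent.BazB1
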