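import Mathlib
import Pool.Agent.Lib_MP_0e1b7e_an.Bridge

/-!
# The extremal function
-/

namespace Pool.Agent.BazB1

open Finset Filter Topology PowerSeries
open scoped Nat

/-- The function `1 + ∑ 2 α / (n + 1 + α) z ^ (n + 1)`. -/
noncomputable def GA (α : ℝ) (z : ℂ) : ℂ :=
  1 + ∑' n : ℕ, (2 * α / (n + 1 + α) : ℂ) * z ^ (n + 1)

theorem GA_zero (α : ℝ) : GA α 0 = 1 := by
  simp [GA]

theorem norm_term_le {α : ℝ} (hα : 0 < α) {ρ : ℝ} (n : ℕ) (w : ℂ)
    (hw : w ∈ Metric.ball (0 : ℂ) ρ) :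
    ‖(2 * α / (n + 1 + α) : ℂ) * w ^ (n + 1)‖ ≤ 2 * ρ ^ n * ρ := by
  rw [mem_ball_zero_iff] at hw
  have h1 : (2 * α / (n + 1 + α) : ℂ) = ((2 * α / (n + 1 + α) : ℝ) : ℂ) := by push_cast; rfl
  rw [h1, norm_mul, norm_pow, Complex.norm_real, mul_assoc, ← pow_succ]
  have h2 : (0 : ℝ) < n + 1 + α := by positivity
  rw [Real.norm_of_nonneg (by positivity)]
  apply mul_le_mul
  · rw [div_le_iff₀ h2]
    nlinarith [(Nat.cast_nonneg n : (0 : ℝ) ≤ n)]
  · exact pow_le_pow_left₀ (norm_nonneg _) hw.le _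
  · positivity
  · norm_num

theorem summable_bound {ρ : ℝ} (hρ : 0 ≤ ρ) (hρ1 : ρ < 1) :
    Summable fun n : ℕ => 2 * ρ ^ n * ρ :=
  ((summable_geometric_of_lt_one hρ hρ1).mul_left 2).mul_right ρ

theorem differentiableOn_term (α : ℝ) (ρ : ℝ) (n : ℕ) :
    DifferentiableOn ℂ (fun w : ℂ => (2 * α / (n + 1 + α) : ℂ) * w ^ (n + 1))
      (Metric.ball 0 ρ) := by
  fun_prop

theorem differentiableOn_GA {α : ℝ} (hα : 0 < α) :
    DifferentiableOn ℂ (GA α) (Metric.ball 0 1) := by
  intro z hz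
  obtain ⟨ρ, hρz, hρ1⟩ := exists_between (mem_ball_zero_iff.1 hz)
  have hρ0 : 0 ≤ ρ := (norm_nonneg z).trans hρz.le
  have h1 := Complex.differentiableOn_tsum_of_summable_norm (summable_bound hρ0 hρ1)
    (differentiableOn_term α ρ) Metric.isOpen_ball (norm_term_le hα)
  have h2 := h1.differentiableAt (Metric.isOpen_ball.mem_nhds (mem_ball_zero_iff.2 hρz))
  exact (h2.const_add 1).differentiableWithinAt

/-- The differential equation of `GA`. -/
theorem GA_ode {α : ℝ} (hα : 0 < α) {z : ℂ} (hz : z ∈ Metric.ball (0 : ℂ) 1) :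
    GA α z + (1 / (α : ℂ)) * (z * deriv (GA α) z) = (1 + z) / (1 - z) := by
  obtain ⟨ρ, hρz, hρ1⟩ := exists_between (mem_ball_zero_iff.1 hz)
  have hρ0 : 0 ≤ ρ := (norm_nonneg z).trans hρz.le
  have hα' : (α : ℂ) ≠ 0 := by exact_mod_cast hα.ne'
  have hzρ : z ∈ Metric.ball (0 : ℂ) ρ := mem_ball_zero_iff.2 hρz
  have h1 := Complex.hasSum_deriv_of_summable_norm (summable_bound hρ0 hρ1)
    (differentiableOn_term α ρ) Metric.isOpen_ball (norm_term_le hα) hzρ
  have h2 : deriv (GA α) z =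
      deriv (fun w : ℂ => ∑' n : ℕ, (2 * α / (n + 1 + α) : ℂ) * w ^ (n + 1)) z := by
    have : GA α = fun w => 1 + ∑' n : ℕ, (2 * α / (n + 1 + α) : ℂ) * w ^ (n + 1) := rfl
    rw [this, deriv_const_add']
  have h3 : Summable fun n : ℕ => (2 * α / (n + 1 + α) : ℂ) * z ^ (n + 1) :=
    Summable.of_norm_bounded (summable_bound hρ0 hρ1) fun n => norm_term_le hα n z hzρ
  have h4 : ∀ n : ℕ, deriv (fun w : ℂ => (2 * α / (n + 1 + α) : ℂ) * w ^ (n + 1)) z =
      (2 * α / (n + 1 + α) : ℂ) * ((n + 1) * z ^ n) := by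
    intro n
    rw [deriv_const_mul_field, deriv_pow_field]
    push_cast
    simp
  simp only [h4] at h1
  rw [← h2] at h1
  have h5 := h3.hasSum.add ((h1.mul_left z).mul_left (1 / (α : ℂ)))
  have h6 : ∀ n : ℕ, (2 * α / (n + 1 + α) : ℂ) * z ^ (n + 1) +
      1 / (α : ℂ) * (z * ((2 * α / (n + 1 + α) : ℂ) * ((n + 1) * z ^ n))) = 2 * z * z ^ n := by
    intro n
    have h7 : ((n : ℂ) + 1 + (α : ℂ)) ≠ 0 := by
      have : (0 : ℝ) < (n : ℝ) + 1 + α := by positivity
      exact_mod_cast this.ne'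
    rw [pow_succ]
    field_simp
    ring
  simp only [h6] at h5
  have hz1 : ‖z‖ < 1 := mem_ball_zero_iff.1 hz
  have h8 := (hasSum_geometric_of_norm_lt_one hz1).mul_left (2 * z)
  have h9 := h5.unique h8
  have h10 : (1 : ℂ) - z ≠ 0 := by
    intro h
    have : z = 1 := (sub_eq_zero.1 h).symm
    rw [this, norm_one] at hz1
    exact lt_irrefl _ hz1
  have h11 : GA α z + (1 / (α : ℂ)) * (z * deriv (GA α) z) = 1 + 2 * z * (1 - z)⁻¹ := by
    rw [← h9, GA]
    ring
  rw [h11]
  field_simp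
  ring

theorem re_cayley_pos {z : ℂ} (hz : z ∈ Metric.ball (0 : ℂ) 1) : 0 < ((1 + z) / (1 - z)).re := by
  have hz1 : ‖z‖ < 1 := mem_ball_zero_iff.1 hz
  have h10 : (1 : ℂ) - z ≠ 0 := by
    intro h
    have : z = 1 := (sub_eq_zero.1 h).symm
    rw [this, norm_one] at hz1
    exact lt_irrefl _ hz1
  have h1 : 0 < Complex.normSq (1 - z) := Complex.normSq_pos.2 h10
  rw [Complex.div_re, ← add_div]
  apply div_pos _ h1
  have h2 : z.re * z.re + z.im * z.im < 1 := by
    rw [← Complex.normSq_apply, Complex.normSq_eq_norm_sq]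
    nlinarith [norm_nonneg z]
  simp only [Complex.add_re, Complex.one_re, Complex.sub_re, Complex.add_im, Complex.one_im,
    Complex.sub_im]
  nlinarith

/-- The real part of `GA` is positive. -/
theorem re_GA_pos {α : ℝ} (hα : 0 < α) {z : ℂ} (hz : z ∈ Metric.ball (0 : ℂ) 1) :
    0 < (GA α z).re := by
  have hz1 : ‖z‖ < 1 := mem_ball_zero_iff.1 hz
  have hball : ∀ t : ℝ, t ∈ Set.Icc (0 : ℝ) 1 → (t : ℂ) * z ∈ Metric.ball (0 : ℂ) 1 := by
    intro t ht
    rw [mem_ball_zero_iff, norm_mul, Complex.norm_real, Real.norm_of_nonneg ht.1]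
    exact (mul_le_of_le_one_left (norm_nonneg _) ht.2).trans_lt hz1
  set ph : ℝ → ℝ := fun t => t ^ α * (GA α (t * z)).re with hph
  have hGd : ∀ t : ℝ, t ∈ Set.Icc (0 : ℝ) 1 →
      HasDerivAt (fun s : ℝ => GA α (s * z)) (deriv (GA α) (t * z) * z) t := by
    intro t ht
    have h1 := ((differentiableOn_GA hα).differentiableAt
      (Metric.isOpen_ball.mem_nhds (hball t ht))).hasDerivAt
    have h2 : HasDerivAt (fun s : ℝ => (s : ℂ) * z) z t := by
      have := (Complex.ofRealCLM.hasDerivAt (x := t)).mul_const z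
      simpa using this
    exact HasDerivAt.comp (h₂ := GA α) (h := fun s : ℝ => (s : ℂ) * z) t h1 h2
  have hGre : ∀ t : ℝ, t ∈ Set.Icc (0 : ℝ) 1 →
      HasDerivAt (fun s : ℝ => (GA α (s * z)).re) (deriv (GA α) (t * z) * z).re t := by
    intro t ht
    exact Complex.reCLM.hasFDerivAt.comp_hasDerivAt t (hGd t ht)
  have hcont : ContinuousOn ph (Set.Icc 0 1) := by
    apply ContinuousOn.mul
    · exact (Real.continuous_rpow_const hα.le).continuousOn
    · intro t ht
      exact (hGre t ht).continuousAt.continuousWithinAt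
  have hmono : StrictMonoOn ph (Set.Icc 0 1) := by
    apply strictMonoOn_of_deriv_pos (convex_Icc 0 1) hcont
    intro t ht
    rw [interior_Icc] at ht
    have ht' : t ∈ Set.Icc (0 : ℝ) 1 := ⟨ht.1.le, ht.2.le⟩
    have h1 : HasDerivAt ph (α * t ^ (α - 1) * (GA α (t * z)).re +
        t ^ α * (deriv (GA α) (t * z) * z).re) t :=
      (Real.hasDerivAt_rpow_const (Or.inl ht.1.ne')).mul (hGre t ht')
    rw [h1.deriv]
    have h2 : t ^ α = t ^ (α - 1) * t := by
      rw [← Real.rpow_add_one ht.1.ne']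
      congr 1
      ring
    have h3 := re_cayley_pos (hball t ht')
    rw [← GA_ode hα (hball t ht')] at h3
    have h4 : (GA α (t * z) + 1 / (α : ℂ) * ((t : ℂ) * z * deriv (GA α) (t * z))).re =
        (GA α (t * z)).re + 1 / α * (t * (deriv (GA α) (t * z) * z).re) := by
      have h5 : 1 / (α : ℂ) * ((t : ℂ) * z * deriv (GA α) (t * z)) =
          ((1 / α * t : ℝ) : ℂ) * (deriv (GA α) (t * z) * z) := by
        push_cast
        ring
      rw [h5, Complex.add_re, Complex.re_ofReal_mul]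
      ring
    rw [h4] at h3
    have h6 : α * t ^ (α - 1) * (GA α (t * z)).re + t ^ α * (deriv (GA α) (t * z) * z).re =
        (α * t ^ (α - 1)) *
          ((GA α (t * z)).re + 1 / α * (t * (deriv (GA α) (t * z) * z).re)) := by
      rw [h2]
      field_simp
    rw [h6]
    exact mul_pos (mul_pos hα (Real.rpow_pos_of_pos ht.1 _)) h3
  have h := hmono (Set.left_mem_Icc.2 zero_le_one) (Set.right_mem_Icc.2 zero_le_one) zero_lt_one
  simp only [hph, Real.zero_rpow hα.ne', zero_mul, Real.one_rpow, one_mul,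
    Complex.ofReal_one] at h
  exact h

/-- The logarithm of the extremal function divided by `z`. -/
noncomputable def LA (α : ℝ) (z : ℂ) : ℂ := Complex.log (GA α z) * (1 / α : ℂ)

theorem differentiableOn_LA {α : ℝ} (hα : 0 < α) :
    DifferentiableOn ℂ (LA α) (Metric.ball 0 1) := by
  have h1 : DifferentiableOn ℂ (fun z => Complex.log (GA α z)) (Metric.ball 0 1) :=
    (differentiableOn_GA hα).clog fun z hz => Or.inl (re_GA_pos hα hz)
  exact h1.mul_const _

theorem LA_zero (α : ℝ) : LA α 0 = 0 := by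
  rw [LA, GA_zero, Complex.log_one, zero_mul]

theorem exp_mul_LA {α : ℝ} (hα : 0 < α) {z : ℂ} (hz : z ∈ Metric.ball (0 : ℂ) 1) :
    Complex.exp ((α : ℂ) * LA α z) = GA α z := by
  have hα' : (α : ℂ) ≠ 0 := by exact_mod_cast hα.ne'
  have h1 : GA α z ≠ 0 := by
    intro h
    have := re_GA_pos hα hz
    rw [h, Complex.zero_re] at this
    exact lt_irrefl _ this
  have h2 : (α : ℂ) * LA α z = Complex.log (GA α z) := by
    rw [LA]
    field_simp
  rw [h2, Complex.exp_log h1]

/-- The Taylor coefficients of the Cayley transform. -/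
theorem tc_cayley (n : ℕ) : tc (fun z => (1 + z) / (1 - z)) (n + 1) = 2 := by
  set h : ℂ → ℂ := fun z => (1 + z) / (1 - z) with hh
  have hne : ∀ z ∈ Metric.ball (0 : ℂ) 1, (1 : ℂ) - z ≠ 0 := by
    intro z hz h
    have hz1 : ‖z‖ < 1 := mem_ball_zero_iff.1 hz
    have : z = 1 := (sub_eq_zero.1 h).symm
    rw [this, norm_one] at hz1
    exact lt_irrefl _ hz1
  have hd1 : DifferentiableOn ℂ (fun z : ℂ => 1 + z) (Metric.ball 0 1) := by fun_prop
  have hd2 : DifferentiableOn ℂ (fun z : ℂ => 1 - z) (Metric.ball 0 1) := by fun_prop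
  have hd : DifferentiableOn ℂ h (Metric.ball 0 1) := hd1.div hd2 hne
  have h1 : TT h * (1 - X) = 1 + X := by
    have e1 : TT (fun z : ℂ => 1 - z) = (1 - X : ℂ⟦X⟧) := by
      have e2 : (fun z : ℂ => 1 - z) = fun z : ℂ => 1 + (-1) * z := by
        funext z
        ring
      rw [e2, TT_add (differentiableOn_const 1) (differentiableOn_id''.const_mul (-1)),
        TT_const, TT_const_mul _ differentiableOn_id'', TT_id]
      simp [sub_eq_add_neg]
    have e3 : TT (fun z : ℂ => 1 + z) = (1 + X : ℂ⟦X⟧) := by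
      rw [TT_add (differentiableOn_const 1) differentiableOn_id'', TT_const, TT_id, map_one]
    rw [← e1, ← TT_mul hd hd2, ← e3]
    apply TT_congr
    intro z hz
    exact div_mul_cancel₀ _ (hne z hz)
  have h2 : ∀ n, coeff (n + 1) (TT h) - coeff n (TT h) = coeff (n + 1) (1 + X : ℂ⟦X⟧) := by
    intro n
    rw [← h1, mul_sub, mul_one, map_sub, coeff_succ_mul_X]
  have h3 : ∀ n, coeff (n + 1) (TT h) = 2 := by
    intro n
    induction n with
    | zero =>
      have h4 := h2 0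
      rw [coeff_zero_eq_constantCoeff_apply, constantCoeff_TT] at h4
      have h5 : h 0 = 1 := by simp [hh]
      rw [h5, map_add, coeff_one, coeff_X] at h4
      simp only [zero_add, one_ne_zero, if_false, if_true] at h4
      rw [zero_add]
      linear_combination h4
    | succ n ih =>
      have h4 := h2 (n + 1)
      rw [ih, map_add, coeff_one, coeff_X, if_neg (by omega), if_neg (by omega)] at h4
      linear_combination h4
  have h6 := h3 n
  rw [TT, coeff_mk] at h6
  exact h6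

end Pool.Agent.BazB1
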